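import Pool.Agent.Helper10.RC.Homs

/-!
# MP_b55b7c_an: the criterion
-/

open scoped ENNReal NNReal InnerProductSpace ComplexOrder
open Filter Topology

attribute [-instance] CStarMatrix.instAlgebra CStarMatrix.instModule CStarMatrix.instSMul
  CStarMatrix.instMulAction CStarMatrix.instDistribMulAction

noncomputable section
namespace RC
universe u

theorem critP (hTrans : CuTransP.{u}) (hDs : CuDsumP.{u}) (hMono : QMonoP.{u})
    (hB : QBasicP.{u}) (hDsum : QDsumP.{u}) (hDg : QDgP.{u}) (hMp : MpP.{u})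
    (hPull : QPullP.{u}) (hSB : SBP.{u}) (hCD : CutDownP.{u}) (hLow : LowBP.{u}) :
    CritP.{u} := by
  intro A _ _ _ B _ _ _ G _ _ α j hact hfix hsimp hTC hTD ρ r hρ hρr hcomp
  intro ι κ _ _ _ _ a b ha hb hlt ε hε
  obtain ⟨m, hm⟩ := hSB A B G α j hact hfix hsimp
  set n : ℝ := (Fintype.card G : ℝ) with hn
  have hn0 : 0 ≤ n := by positivity
  set θ : ℝ := (r - ρ) / 4 with hθ
  have hθ0 : 0 < θ := by rw [hθ]; linarith
  have hD : 0 < ρ + 3 * θ := by positivity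
  set δd : ℝ := θ / (2 * (ρ + 3 * θ)) with hδd
  have hδd0 : 0 < δd := by positivity
  have hδd1 : δd * (2 * (ρ + 3 * θ)) = θ := by rw [hδd]; field_simp
  have hδd2 : δd < 1 := by
    rw [hδd, div_lt_one (by positivity)]; linarith
  obtain ⟨N, hN⟩ := exists_nat_ge (2 / θ)
  obtain ⟨L, hNL, hL0, f, hf, ⟨s, cd, hcd, hle, hcdim⟩, hfdim⟩ := hTD N δd hδd0
  have hL : (0 : ℝ) < L := by exact_mod_cast hL0
  have hθL : 2 ≤ θ * L := by
    have h1 : (N : ℝ) ≤ L := by exact_mod_cast hNL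
    have h2 : 2 / θ ≤ L := hN.trans h1
    rw [div_le_iff₀ hθ0] at h2
    linarith
  obtain ⟨ε₀, hε₀, hlow⟩ := hLow B L f s cd δd hf hcd hδd2 hle
  set J : ℕ := ⌊(ρ + 3 * θ) * L⌋₊ with hJ
  have hJ1 : (J : ℝ) ≤ (ρ + 3 * θ) * L := Nat.floor_le (by positivity)
  have hJ2 : (ρ + 3 * θ) * L < J + 1 := Nat.lt_floor_add_one _
  have hJ0 : (0 : ℝ) ≤ J := by positivity
  -- the size of `δ`
  obtain ⟨δ, hδ0, hδε, hδε₀, hδθ⟩ : ∃ δ : ℝ, 0 < δ ∧ 4 * δ ≤ ε / 2 ∧ 4 * δ ≤ ε₀ ∧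
      2 * (m * n * δ) ≤ θ := by
    refine ⟨min (ε / 8) (min (ε₀ / 4) (θ / (2 * (m * n + 1)))), by positivity, ?_, ?_, ?_⟩
    · have := min_le_left (ε / 8) (min (ε₀ / 4) (θ / (2 * (m * n + 1))))
      linarith
    · have h1 := min_le_right (ε / 8) (min (ε₀ / 4) (θ / (2 * (m * n + 1))))
      have h2 := min_le_left (ε₀ / 4) (θ / (2 * (m * n + 1)))
      linarith
    · have h1 := min_le_right (ε / 8) (min (ε₀ / 4) (θ / (2 * (m * n + 1))))
      have h2 := min_le_right (ε₀ / 4) (θ / (2 * (m * n + 1)))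
      have h3 : min (ε / 8) (min (ε₀ / 4) (θ / (2 * (m * n + 1)))) ≤ θ / (2 * (m * n + 1)) :=
        h1.trans h2
      rw [le_div_iff₀ (by positivity)] at h3
      have h4 : 0 < min (ε / 8) (min (ε₀ / 4) (θ / (2 * (m * n + 1)))) := by positivity
      nlinarith
  have hjf : 0 ≤ j f := map_nonneg j hf
  -- tracial comparison in `A`
  have hlt' : ∀ σ : QTrace A, σ.dim (dsum a (dg (Fin J) (j f))) < σ.dim b := by
    intro σ
    obtain ⟨ω, hω⟩ := hPull A B j hfix.1 σ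
    have h1 := (hDsum A σ ι (Fin J) a (dg (Fin J) (j f)) ha (dg_nonneg hjf)).2
    have h2 := (hDg A σ (Fin J) (j f) hjf).2
    have h3 : ω.dim (one1 f) = σ.dim (one1 (j f)) := by
      rw [hω Unit (one1 f) (one1_nonneg hf), mp_one1]
    have h4 := hfdim ω
    rw [h3] at h4
    have h5 := hlt σ
    rw [h1, h2, Fintype.card_fin]
    have h6 : 0 ≤ σ.dim (one1 (j f)) := (hB A σ Unit _ (one1_nonneg hjf)).2.1
    have h7 : (J : ℝ) * σ.dim (one1 (j f)) ≤ (ρ + 3 * θ) * (L * σ.dim (one1 (j f))) := by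
      rw [← mul_assoc]; exact mul_le_mul_of_nonneg_right hJ1 h6
    have h8 : (ρ + 3 * θ) * (L * σ.dim (one1 (j f))) ≤ (ρ + 3 * θ) * (1 + δd) :=
      mul_le_mul_of_nonneg_left h4.le hD.le
    have h9 : (ρ + 3 * θ) * (1 + δd) ≤ r := by
      have : r = ρ + 4 * θ := by rw [hθ]; ring
      rw [this]; nlinarith
    linarith
  obtain ⟨y, c, hc, hyc, hcd'⟩ := hTC (ι ⊕ Fin J) κ (dsum a (dg (Fin J) (j f))) b
    (dsum_nonneg ha (dg_nonneg hjf)) hb hlt' δ hδ0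
  obtain ⟨a₁, e₀, e₁, d, ha₁, he₀, he₁, hd, hc1, hc2, hc3, hc4, hc5⟩ :=
    hCD A B G α j hact hfix ι κ a b f J y c δ δ ha hb hf hc hδ0 hyc (fun σ => (hcd' σ).le)
  -- `e₀ ≼ d` in `B`
  have hed : Cu e₀ d := by
    refine hcomp ι (Fin J) e₀ d he₀ hd fun ω => ?_
    obtain ⟨σ, hσ⟩ := hm ω
    have h0 : ω.dim e₀ ≤ m * (n * δ) :=
      (hσ ι e₀ he₀).2.trans (mul_le_mul_of_nonneg_left (hc4 σ) (by positivity))
    have h1 : ω.dim e₁ ≤ m * (n * δ) :=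
      (hσ (Fin J) e₁ he₁).2.trans (mul_le_mul_of_nonneg_left (hc5 σ) (by positivity))
    have hfsa : IsSelfAdjoint f := hf.isSelfAdjoint
    have h2 : ω.dim (cut (dg (Fin J) f) (4 * δ)) ≤ ω.dim (dsum d e₁) :=
      hMono B ω (Fin J) (Fin J ⊕ Fin J) _ _ (cut_nonneg _ _) (dsum_nonneg hd he₁) hc3
    rw [(hDsum B ω (Fin J) (Fin J) d e₁ hd he₁).2, cut_dg hfsa,
      (hDg B ω (Fin J) _ (cut_nonneg f (4 * δ))).2, Fintype.card_fin] at h2
    have h3 := hlow (4 * δ) (by positivity) hδε₀ ω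
    have h4 := hcdim ω
    set X := ω.dim (one1 (cut f (4 * δ))) with hX
    have hX1 : 1 - δd ≤ L * X := by linarith
    have hJL : (ρ + 5 / 2 * θ) * L ≤ J := by
      have : (L : ℝ) * θ ≥ 2 := by linarith
      nlinarith
    have hX0 : 0 ≤ X := (hB B ω Unit _ (one1_nonneg (cut_nonneg f (4 * δ)))).2.1
    have h5 : (ρ + 5 / 2 * θ) * (1 - δd) ≤ J * X := by
      calc (ρ + 5 / 2 * θ) * (1 - δd) ≤ (ρ + 5 / 2 * θ) * (L * X) :=
            mul_le_mul_of_nonneg_left hX1 (by positivity)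
        _ = ((ρ + 5 / 2 * θ) * L) * X := by ring
        _ ≤ J * X := mul_le_mul_of_nonneg_right hJL hX0
    have h6 : ρ + 2 * θ ≤ (ρ + 5 / 2 * θ) * (1 - δd) := by
      nlinarith
    nlinarith
  have h1 : Cu (mp j e₀) (mp j d) := (hMp A B j hfix.1 ι (Fin J) e₀ d).2.2.1 hed
  have h2 : Cu (dsum a₁ (mp j e₀)) (dsum a₁ (mp j d)) :=
    hDs A ι ι ι (Fin J) a₁ a₁ (mp j e₀) (mp j d) (Cu.refl _) h1
  have h3 : Cu (cut a (4 * δ)) b :=
    hTrans A ι (ι ⊕ ι) κ _ _ _ hc1 (hTrans A (ι ⊕ ι) (ι ⊕ Fin J) κ _ _ _ h2 hc2)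
  obtain ⟨v, hv⟩ := h3 (ε / 2) (by positivity)
  refine ⟨v, ?_⟩
  have h4 : ‖a - cut a (4 * δ)‖ ≤ 4 * δ := norm_sub_cut_le ha (by positivity)
  have h5 : v * b * v.conjTranspose - a =
      (v * b * v.conjTranspose - cut a (4 * δ)) - (a - cut a (4 * δ)) := by abel
  rw [h5]
  refine (norm_sub_le _ _).trans_lt ?_
  linarith

end RC
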