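import Pool.Agent.Helper10.RC.Fin
import Pool.Agent.Helper10.RC.Crit
import Pool.Agent.Helper8.RC.Cu1
import Pool.Agent.Helper6.RC.CuLeAdd
import Pool.Agent.Helper89.RC.CuSwap
import Pool.Agent.Helper65.RC.CuAdd
import Pool.Agent.Helper67.RC.Ped
import Pool.Agent.Helper69.RC.QB1
import Pool.Agent.Helper31.RC.QB2
import Pool.Agent.Helper96.RC.QSwap
import Pool.Agent.Helper15.RC.QMono
import Pool.Agent.Helper27.RC.LimEqP
import Pool.Agent.Helper8.RC.QOfT
import Pool.Agent.Helper62.RC.Mp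
import Pool.Agent.Helper86.RC.QPull
import Pool.Agent.Helper74.RC.SL1
import Pool.Agent.Helper39.RC.SL2
import Pool.Agent.Helper50.RC.SB1
import Pool.Agent.Helper3.RC.SB2
import Pool.Agent.Helper32.RC.CutDown
import Pool.Agent.Helper96.RC.LowB
import Pool.Agent.Helper77.RC.Flat
import Pool.Agent.Helper7.RC.Red
import Pool.Agent.Helper60.RC.RedComp
import Pool.Agent.Helper45.RC.DomM
import Pool.Agent.Helper6.RC.DomMat
import Pool.Agent.Helper74.RC.TComp0
import Pool.Agent.Helper38.RC.TComp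
import Pool.Agent.Helper93.RC.TDiv
import Pool.Agent.Helper48.RC.Polar
import Pool.Agent.Helper5.RC.TwoNorm
import Pool.Agent.Helper53.RC.Nc
import Pool.Agent.Helper28.RC.Exh
import Pool.Agent.Helper19.RC.Csup
import Pool.Agent.Helper8.RC.Cmp
import Pool.Agent.Helper72.RC.Halv
import Pool.Agent.Helper46.RC.Pieces
import Pool.Agent.Helper54.RC.Min
import Pool.Agent.Helper28.RC.NoAb
import Pool.Agent.Helper95.RC.Gns
import Pool.Agent.Helper50.RC.Imp
import Pool.Agent.Helper85.RC.RepFV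
import Pool.Agent.Helper98.RC.RepFV2
import Pool.Agent.Helper18.RC.Kap
import Pool.Agent.Helper5.RC.NoMinN
import Pool.Agent.Helper70.RC.NoMinP
import Pool.Agent.Helper42.RC.ZB
import Pool.Agent.Helper33.RC.Rank
import Pool.Agent.Helper57.RC.TC2
import Pool.Agent.Helper64.RC.TD2
import Pool.Agent.Helper19.RC.Cross
import Pool.Agent.Helper99.RC.Simp

/-!
# MP_b55b7c_an: all pieces together
-/

open scoped ENNReal NNReal InnerProductSpace ComplexOrder
open Filter Topology

attribute [-instance] CStarMatrix.instAlgebra CStarMatrix.instModule CStarMatrix.instSMul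
  CStarMatrix.instMulAction CStarMatrix.instDistribMulAction

noncomputable section
namespace RC
universe u

theorem cuLeAdd_all : CuLeAddP.{u} := Pool.Agent.Helper6.RC.cuLeAddP
theorem cuSwap_all : CuSwapP.{u} := cuSwapP intP
theorem cuAdd_all : CuAddP.{u} := cuAddP cuLeAdd_all
theorem qMono_all : QMonoP.{u} := qMonoP pedP (qSwapP intP) qBasicP
theorem qDsum_all : QDsumP.{u} := qDsumP qBasicP
theorem qDg_all : QDgP.{u} := qDgP qBasicP
theorem qPull_all : QPullP.{u} := qPullP mpP
theorem sB_all : SBP.{u} := sBP (sB1P (sL2P sL1P)) qMono_all qBasicP qOneP mpP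
theorem cutDown_all : CutDownP.{u} :=
  cutDownP mpP qPull_all cuLeAdd_all cuSwap_all cuAdd_all cuDsumP cuTransP qMono_all qDsum_all
theorem lowB_all : LowBP.{u} := lowBP qMono_all qOneP qDsum_all qDg_all cuLeAdd_all
theorem crit_all : CritP.{u} :=
  critP cuTransP cuDsumP qMono_all qBasicP qDsum_all qDg_all mpP qPull_all sB_all cutDown_all
    lowB_all
theorem redUp_all : RedUpP.{u} := redUpP flatP qOneP
theorem redDn_all : RedDnP.{u} := redDnP flatP qMono_all
theorem redComp_all : RedCompP.{u} := redCompP redDn_all flatP cuTransP qMono_all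
theorem domM_all : DomMP.{u} := domMP cuAdd_all cuSwap_all qMono_all qDsum_all qBasicP
theorem domMat_all : DomMatP.{u} :=
  Pool.Agent.Helper6.RC.domMatP qOfTP redDn_all domM_all flatP
theorem repFV2_all : RepFV2P.{u} := repFV2P repFVP
theorem kap_all : KapP.{u} := kapP repFVP twoNormP
theorem kap2_all : Kap2P.{u} := kap2P kap_all
theorem rank_all : RankP.{u} := rankP repFVP qOfTP qBasicP
theorem min_all : MinP.{u} := minP polarP
theorem noMinN_all : NoMinNP.{u} := noMinNP min_all repFVP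
theorem noMinP_all : NoMinPP.{u} := noMinPP min_all repFVP
theorem zB_all : ZBP.{u} := zBP kap2_all repFV2_all qOfTP qBasicP qCutP
theorem noAb_all : NoAbP.{u} := noAbP csupP

theorem cmp_of (hMax : MaxP.{u}) : CmpP.{u} := cmpP (exhP hMax polarP) csupP
theorem pieces_of (hMax : MaxP.{u}) (hTwo : TwoP.{u}) : PiecesP.{u} :=
  Helper46RC.piecesP (halvP hMax hTwo)
theorem tC2_of (hMax : MaxP.{u}) : TC2P.{u} :=
  tC2P gnsP repFVP rank_all polarP (cmp_of hMax) kap_all twoNormP
theorem tD2_of (hMax : MaxP.{u}) (hTwo : TwoP.{u}) : TD2P.{u} :=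
  tD2P gnsP impP repFV2_all noMinN_all noMinP_all zB_all noAb_all (pieces_of hMax hTwo) kap2_all
    twoNormP
theorem tComp_of (hMax : MaxP.{u}) : TCompP.{u} :=
  tCompP (tComp0P (tC2_of hMax) qBasicP) domMat_all redDn_all redUp_all flatP qMono_all qBasicP
theorem tDiv_of (hMax : MaxP.{u}) (hTwo : TwoP.{u}) : TDivP.{u} :=
  tDivP (tD2_of hMax hTwo) sB_all domM_all cuLeAdd_all cuSwap_all cuAdd_all qMono_all qDsum_all
    qDg_all qBasicP mpP

theorem final_of (hMax : MaxP.{u}) (hTwo : TwoP.{u})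
    (A : Type u) [CStarAlgebra A] [PartialOrder A] [StarOrderedRing A]
    (hs : IsSimpleC A) (hinf : ¬ FiniteDimensional ℂ A) (φ : TState A) (C : ℝ)
    (hCd : ∀ (σ : QTrace A) (x : A), 0 ≤ x → σ.τ Unit (one1 x) ≤ C * (φ.φ x).re)
    (G : Type) [Group G] [Fintype G] (α : G → A ≃⋆ₐ[ℂ] A) (hα : IsAct α) :
    (∀ (B : Type u) [CStarAlgebra B] [PartialOrder B] [StarOrderedRing B] (j : B →⋆ₐ[ℂ] A),
      IsFix α j → rc A ≤ rc B) ∧
    (∀ (R : Type u) [CStarAlgebra R] [PartialOrder R] [StarOrderedRing R] (k : A →⋆ₐ[ℂ] R)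
      (w : G → R), IsCross α k w → rc A / Fintype.card G ≤ rc R) :=
  final (limEqP qBasicP) crit_all redComp_all qBasicP qOfTP (tComp_of hMax)
    (tDiv_of hMax hTwo) domMat_all crossP matSimpP simpP A hs hinf φ C hCd G α hα

end RC
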