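import Pool.Agent.Helper10.RC.Props

/-!
# MP_b55b7c_an: basic tools for rectangular matrices over C*-algebras and for quasitraces
-/

open scoped ENNReal NNReal InnerProductSpace ComplexOrder
open Filter Topology

attribute [-instance] CStarMatrix.instAlgebra CStarMatrix.instModule CStarMatrix.instSMul
  CStarMatrix.instMulAction CStarMatrix.instDistribMulAction

set_option linter.unusedSectionVars false

noncomputable section
namespace RC
universe u

variable {A : Type u} [CStarAlgebra A] [PartialOrder A] [StarOrderedRing A]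
variable {ι κ μ ν : Type} [Fintype ι] [DecidableEq ι] [Fintype κ] [DecidableEq κ]
  [Fintype μ] [DecidableEq μ] [Fintype ν] [DecidableEq ν]

/-! ## Algebra of rectangular matrices -/

theorem cm_assoc (x : CStarMatrix ι κ A) (y : CStarMatrix κ μ A) (z : CStarMatrix μ ν A) :
    x * y * z = x * (y * z) := Matrix.mul_assoc _ _ _

theorem cm_conj_mul (x : CStarMatrix ι κ A) (y : CStarMatrix κ μ A) :
    (x * y).conjTranspose = y.conjTranspose * x.conjTranspose := Matrix.conjTranspose_mul _ _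

theorem cm_conj_conj (x : CStarMatrix ι κ A) : x.conjTranspose.conjTranspose = x :=
  Matrix.conjTranspose_conjTranspose _

theorem cm_conj_add (x y : CStarMatrix ι κ A) :
    (x + y).conjTranspose = x.conjTranspose + y.conjTranspose := Matrix.conjTranspose_add _ _

theorem cm_conj_sub (x y : CStarMatrix ι κ A) :
    (x - y).conjTranspose = x.conjTranspose - y.conjTranspose := Matrix.conjTranspose_sub _ _

theorem cm_one_mul (x : CStarMatrix ι κ A) : (1 : CStarMatrix ι ι A) * x = x :=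
  Matrix.one_mul _

theorem cm_mul_one (x : CStarMatrix ι κ A) : x * (1 : CStarMatrix κ κ A) = x :=
  Matrix.mul_one _

theorem cm_mul_sub (x : CStarMatrix ι κ A) (y z : CStarMatrix κ μ A) :
    x * (y - z) = x * y - x * z := Matrix.mul_sub _ _ _

theorem cm_sub_mul (x y : CStarMatrix ι κ A) (z : CStarMatrix κ μ A) :
    (x - y) * z = x * z - y * z := Matrix.sub_mul _ _ _

/-- For square matrices `conjTranspose` is `star`. -/
theorem cm_star_eq (x : CStarMatrix ι ι A) : x.conjTranspose = star x := rfl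

theorem cm_conj_one : (1 : CStarMatrix ι ι A).conjTranspose = 1 :=
  Matrix.conjTranspose_one

theorem cm_smul_apply (c : ℝ) (x : CStarMatrix ι κ A) (i : ι) (j : κ) :
    (c • x) i j = c • x i j := rfl

theorem cm_mul_rsmul (x : CStarMatrix ι κ A) (c : ℝ) (y : CStarMatrix κ μ A) :
    x * (c • y) = c • (x * y) := Matrix.mul_smul _ _ _

theorem cm_rsmul_mul (x : CStarMatrix ι κ A) (c : ℝ) (y : CStarMatrix κ μ A) :
    (c • x) * y = c • (x * y) := Matrix.smul_mul _ _ _

theorem cm_conj_rsmul (c : ℝ) (x : CStarMatrix ι κ A) :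
    (c • x).conjTranspose = c • x.conjTranspose := by
  ext i j
  show star (c • x j i) = c • star (x j i)
  rw [star_smul, star_trivial]

theorem cm_norm_mul_le (x : CStarMatrix ι κ A) (y : CStarMatrix κ μ A) :
    ‖x * y‖ ≤ ‖x‖ * ‖y‖ := by
  have h : CStarMatrix.toCLM (x * y) = (CStarMatrix.toCLM y).comp (CStarMatrix.toCLM x) := by
    ext v i
    simp only [CStarMatrix.toCLM_apply, ContinuousLinearMap.comp_apply]
    show Matrix.vecMul _ (CStarMatrix.ofMatrix.symm x * CStarMatrix.ofMatrix.symm y) i = _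
    rw [← Matrix.vecMul_vecMul]
    rfl
  rw [CStarMatrix.norm_def, CStarMatrix.norm_def, CStarMatrix.norm_def, h, mul_comm]
  exact ContinuousLinearMap.opNorm_comp_le _ _

theorem cm_norm_conj (x : CStarMatrix ι κ A) : ‖x.conjTranspose‖ = ‖x‖ := by
  have key : ∀ (ι κ : Type) [Fintype ι] [DecidableEq ι] [Fintype κ] [DecidableEq κ]
      (x : CStarMatrix ι κ A), ‖x.conjTranspose‖ ≤ ‖x‖ := by
    intro ι κ _ _ _ _ x
    have := CStarMatrix.norm_le_of_forall_inner_le (M := x.conjTranspose) (C := ‖x‖₊) (by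
      intro v w
      have h0 : ⟪w, CStarMatrix.toCLM x.conjTranspose v⟫_A = ⟪CStarMatrix.toCLM x w, v⟫_A :=
        CStarMatrix.inner_toCLM_conjTranspose_right
      rw [h0]
      refine (CStarModule.norm_inner_le _).trans ?_
      have := (CStarMatrix.toCLM x).le_opNorm w
      rw [← CStarMatrix.norm_def] at this
      calc _ ≤ (‖x‖ * ‖w‖) * ‖v‖ := by gcongr
        _ = _ := by rw [coe_nnnorm]; ring)
    simpa using this
  refine le_antisymm (key _ _ x) ?_
  conv_lhs => rw [← cm_conj_conj x]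
  exact key _ _ _

/-! ## Positivity -/

theorem cm_mul_conj_nonneg (x : CStarMatrix ι κ A) : 0 ≤ x * x.conjTranspose := by
  cases isEmpty_or_nonempty ι with
  | inl h =>
    have : x * x.conjTranspose = 0 := by ext i; exact (h.false i).elim
    rw [this]
  | inr h =>
    obtain ⟨i₀⟩ := h
    have : x * x.conjTranspose = ∑ k : κ, (CStarMatrix.ofMatrix
        (Matrix.of fun i i' => if i' = i₀ then x i k else 0) : CStarMatrix ι ι A) *
        star (CStarMatrix.ofMatrix
        (Matrix.of fun i i' => if i' = i₀ then x i k else 0) : CStarMatrix ι ι A) := by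
      ext i j
      have hs : ∀ (f : κ → CStarMatrix ι ι A), (∑ k, f k) i j = ∑ k, f k i j := by
        intro f
        exact Matrix.sum_apply _ _ _ _
      rw [hs, CStarMatrix.mul_apply]
      refine Finset.sum_congr rfl fun k _ => ?_
      rw [CStarMatrix.mul_apply, Finset.sum_eq_single i₀]
      · simp [CStarMatrix.star_apply]
      · intro b _ hb
        simp [CStarMatrix.star_apply, hb]
      · simp
    rw [this]
    exact Finset.sum_nonneg fun k _ => mul_star_self_nonneg _

theorem cm_conj_mul_nonneg (x : CStarMatrix ι κ A) : 0 ≤ x.conjTranspose * x := by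
  have := cm_mul_conj_nonneg x.conjTranspose
  rwa [cm_conj_conj] at this

theorem cm_conj_nonneg (v : CStarMatrix ι κ A) {b : CStarMatrix κ κ A} (hb : 0 ≤ b) :
    0 ≤ v * b * v.conjTranspose := by
  obtain ⟨s, hs⟩ := CStarAlgebra.nonneg_iff_eq_mul_star_self.mp hb
  have : v * b * v.conjTranspose = (v * s) * (v * s).conjTranspose := by
    rw [cm_conj_mul, hs, ← cm_star_eq, ← cm_assoc, ← cm_assoc]
  rw [this]
  exact cm_mul_conj_nonneg _

theorem cm_conj_le (v : CStarMatrix ι κ A) {a b : CStarMatrix κ κ A} (hb : a ≤ b) :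
    v * a * v.conjTranspose ≤ v * b * v.conjTranspose := by
  have := cm_conj_nonneg v (sub_nonneg.2 hb)
  rw [cm_mul_sub, cm_sub_mul] at this
  exact sub_nonneg.1 this

theorem cm_conj_le' (v : CStarMatrix κ ι A) {a b : CStarMatrix κ κ A} (hb : a ≤ b) :
    v.conjTranspose * a * v ≤ v.conjTranspose * b * v := by
  have := cm_conj_le v.conjTranspose hb
  rwa [cm_conj_conj] at this

theorem cm_conj_nonneg' (v : CStarMatrix κ ι A) {b : CStarMatrix κ κ A} (hb : 0 ≤ b) :
    0 ≤ v.conjTranspose * b * v := by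
  have := cm_conj_nonneg v.conjTranspose hb
  rwa [cm_conj_conj] at this

theorem cm_norm_conj_le (v : CStarMatrix ι κ A) (b : CStarMatrix κ κ A) :
    ‖v * b * v.conjTranspose‖ ≤ ‖v‖ ^ 2 * ‖b‖ := by
  calc _ ≤ ‖v * b‖ * ‖v.conjTranspose‖ := cm_norm_mul_le _ _
    _ ≤ (‖v‖ * ‖b‖) * ‖v‖ := by
      rw [cm_norm_conj]; gcongr; exact cm_norm_mul_le _ _
    _ = _ := by ring

/-! ## The functional calculus -/

section cut
variable {D : Type u} [CStarAlgebra D] [PartialOrder D] [StarOrderedRing D]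

/-- Order from the functional calculus of one element. -/
theorem cfc_le_cfc' (a : D) (f g : ℝ → ℝ) (hf : ContinuousOn f (spectrum ℝ a))
    (hg : ContinuousOn g (spectrum ℝ a)) (h : ∀ t ∈ spectrum ℝ a, f t ≤ g t) :
    cfc f a ≤ cfc g a := cfc_mono h hf hg

theorem cut_nonneg (a : D) (ε : ℝ) : 0 ≤ cut a ε :=
  cfc_nonneg fun _ _ => le_max_right _ _

theorem cut_sa (a : D) (ε : ℝ) : IsSelfAdjoint (cut a ε) := (cut_nonneg a ε).isSelfAdjoint

theorem cut_zero {a : D} (ha : 0 ≤ a) : cut a 0 = a := by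
  unfold cut
  conv_rhs => rw [← cfc_id' ℝ a]
  refine cfc_congr fun t ht => ?_
  simp only [sub_zero]
  exact max_eq_left (spectrum_nonneg_of_nonneg ha ht)

theorem cut_cut {a : D} (ha : IsSelfAdjoint a) {s t : ℝ} (ht : 0 ≤ t) :
    cut (cut a s) t = cut a (s + t) := by
  unfold cut
  rw [← cfc_comp' (fun x : ℝ => max (x - t) 0) (fun x : ℝ => max (x - s) 0) a]
  refine cfc_congr fun x _ => ?_
  rcases le_total (x - s) 0 with h | h
  · rw [max_eq_right h, max_eq_right (by linarith), max_eq_right (by linarith)]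
  · simp only [max_eq_left h]
    congr 1
    ring

theorem norm_sub_cut_le {a : D} (ha : 0 ≤ a) {ε : ℝ} (hε : 0 ≤ ε) : ‖a - cut a ε‖ ≤ ε := by
  have h1 : a - cut a ε = cfc (fun t : ℝ => t - max (t - ε) 0) a := by
    rw [cfc_sub (fun x : ℝ => x) (fun t : ℝ => max (t - ε) 0) a, cfc_id' ℝ a, cut]
  rw [h1]
  refine norm_cfc_le hε fun t ht => ?_
  have h0 := spectrum_nonneg_of_nonneg ha ht
  rw [Real.norm_eq_abs, abs_le]
  rcases le_total (t - ε) 0 with h | h
  · rw [max_eq_right h]; constructor <;> linarith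
  · rw [max_eq_left h]; constructor <;> linarith

theorem cfc_add_smul_one (a : D) (f : ℝ → ℝ) (hf : Continuous f) (ha : IsSelfAdjoint a)
    (c : ℝ) : cfc f a + c • (1 : D) = cfc (fun t => f t + c) a := by
  rw [cfc_add_const c f a, Algebra.algebraMap_eq_smul_one]

theorem le_cut_add {a : D} (ha : IsSelfAdjoint a) (ε : ℝ) : a ≤ cut a ε + ε • (1 : D) := by
  unfold cut
  rw [cfc_add_smul_one a _ (by fun_prop) ha]
  conv_lhs => rw [← cfc_id' ℝ a]
  refine cfc_mono fun t _ => ?_
  have := le_max_left (t - ε) 0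
  linarith

theorem cut_le {a : D} (ha : 0 ≤ a) {ε : ℝ} (hε : 0 ≤ ε) : cut a ε ≤ a := by
  unfold cut
  conv_rhs => rw [← cfc_id' ℝ a]
  refine cfc_mono fun t ht => ?_
  exact max_le (by linarith) (spectrum_nonneg_of_nonneg ha ht)

end cut

/-! ## Quasitraces -/

theorem QTrace.zero (σ : QTrace A) : σ.τ ι 0 = 0 := by
  have := σ.smul ι 0 0 le_rfl le_rfl
  simpa using this

theorem QTrace.mono_of_comm (σ : QTrace A) {a b : CStarMatrix ι ι A} (ha : 0 ≤ a) (hab : a ≤ b)
    (h : a * b = b * a) : σ.τ ι a ≤ σ.τ ι b := by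
  have h1 := σ.add ι a (b - a) ha (sub_nonneg.2 hab) (by rw [mul_sub, sub_mul, h])
  have h2 := σ.nonneg ι (b - a) (sub_nonneg.2 hab)
  rw [add_sub_cancel] at h1
  linarith

theorem QTrace.cfc_mono (σ : QTrace A) {a : CStarMatrix ι ι A} {f g : ℝ → ℝ}
    (hf : ContinuousOn f (spectrum ℝ a)) (hg : ContinuousOn g (spectrum ℝ a))
    (h0 : ∀ t ∈ spectrum ℝ a, 0 ≤ f t) (h : ∀ t ∈ spectrum ℝ a, f t ≤ g t) :
    σ.τ ι (cfc f a) ≤ σ.τ ι (cfc g a) :=
  σ.mono_of_comm (cfc_nonneg h0) (_root_.cfc_mono h hf hg) (cfc_commute_cfc f g a)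

theorem QTrace.cfc_add (σ : QTrace A) {a : CStarMatrix ι ι A} {f g : ℝ → ℝ}
    (hf : ContinuousOn f (spectrum ℝ a)) (hg : ContinuousOn g (spectrum ℝ a))
    (h0 : ∀ t ∈ spectrum ℝ a, 0 ≤ f t) (h1 : ∀ t ∈ spectrum ℝ a, 0 ≤ g t) :
    σ.τ ι (cfc (fun t => f t + g t) a) = σ.τ ι (cfc f a) + σ.τ ι (cfc g a) := by
  rw [_root_.cfc_add a f g]
  exact σ.add ι _ _ (cfc_nonneg h0) (cfc_nonneg h1) (cfc_commute_cfc f g a)

theorem QTrace.cfc_smul (σ : QTrace A) {a : CStarMatrix ι ι A} {f : ℝ → ℝ}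
    (hf : ContinuousOn f (spectrum ℝ a)) (h0 : ∀ t ∈ spectrum ℝ a, 0 ≤ f t) {c : ℝ}
    (hc : 0 ≤ c) : σ.τ ι (cfc (fun t => c * f t) a) = c * σ.τ ι (cfc f a) := by
  rw [← σ.smul ι c _ hc (cfc_nonneg h0), ← cfc_const_mul c f a]

end RC
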