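import Mathlib

/-!
# MP_b55b7c_an: definitions

Radius of comparison of unital C*-algebras, finite group actions.
`M_∞(A)` is modelled by the matrices indexed by finite types.
-/

open scoped ENNReal NNReal InnerProductSpace ComplexOrder
open Filter Topology

attribute [-instance] CStarMatrix.instAlgebra CStarMatrix.instModule CStarMatrix.instSMul
  CStarMatrix.instMulAction CStarMatrix.instDistribMulAction

noncomputable section
namespace RC
universe u

/-- The positive part `(a - ε)_+`. -/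
def cut {A : Type u} [CStarAlgebra A] (a : A) (ε : ℝ) : A :=
  cfc (fun t : ℝ => max (t - ε) 0) a

/-- A scalar as a `1 × 1` matrix. -/
def one1 {A : Type u} (a : A) : CStarMatrix Unit Unit A := CStarMatrix.ofMatrix fun _ _ => a

/-- The direct sum of two square matrices. -/
def dsum {A : Type u} [Zero A] {ι κ : Type} (a : CStarMatrix ι ι A) (b : CStarMatrix κ κ A) :
    CStarMatrix (ι ⊕ κ) (ι ⊕ κ) A :=
  CStarMatrix.ofMatrix (Matrix.fromBlocks a 0 0 b)

/-- The diagonal matrix with all diagonal entries equal to `f`. -/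
def dg {A : Type u} [Zero A] (κ : Type) [DecidableEq κ] (f : A) : CStarMatrix κ κ A :=
  CStarMatrix.ofMatrix (Matrix.diagonal fun _ => f)

section
variable (A : Type u) [CStarAlgebra A] [PartialOrder A] [StarOrderedRing A]

/-- A normalized 2-quasitrace on `A`, together with its extension to all matrix algebras:
a function on the positive cones of all matrix algebras over `A` which takes the same value
at `x x*` and `x* x`, is additive on commuting positive elements, positively homogeneous and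
nonnegative, and has the value `1` at the unit of `A`. -/
structure QTrace where
  τ : ∀ (ι : Type) [Fintype ι] [DecidableEq ι], CStarMatrix ι ι A → ℝ
  nonneg : ∀ (ι : Type) [Fintype ι] [DecidableEq ι] (a : CStarMatrix ι ι A), 0 ≤ a → 0 ≤ τ ι a
  trace : ∀ (ι κ : Type) [Fintype ι] [DecidableEq ι] [Fintype κ] [DecidableEq κ]
    (x : CStarMatrix ι κ A), τ ι (x * x.conjTranspose) = τ κ (x.conjTranspose * x)
  add : ∀ (ι : Type) [Fintype ι] [DecidableEq ι] (a b : CStarMatrix ι ι A), 0 ≤ a → 0 ≤ b →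
    a * b = b * a → τ ι (a + b) = τ ι a + τ ι b
  smul : ∀ (ι : Type) [Fintype ι] [DecidableEq ι] (c : ℝ) (a : CStarMatrix ι ι A), 0 ≤ c → 0 ≤ a →
    τ ι (c • a) = c * τ ι a
  one : τ Unit 1 = 1

/-- A tracial state on `A`. -/
structure TState where
  φ : A →ₗ[ℂ] ℂ
  nonneg : ∀ a : A, 0 ≤ a → 0 ≤ φ a
  trace : ∀ a b : A, φ (a * b) = φ (b * a)
  one : φ 1 = 1

end

section
variable {A : Type u} [CStarAlgebra A] [PartialOrder A] [StarOrderedRing A]

/-- `d_σ(a) = lim σ(a^{1/n})`. -/
def QTrace.d (σ : QTrace A) {ι : Type} [Fintype ι] [DecidableEq ι] (a : CStarMatrix ι ι A) : ℝ :=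
  limUnder atTop fun n : ℕ => σ.τ ι (cfc (fun t : ℝ => t ^ (((n : ℝ) + 1)⁻¹)) a)

/-- The supremum of the values at `min(1, n a)`: this is `d_σ(a)` for `a ≥ 0`. -/
def QTrace.dim (σ : QTrace A) {ι : Type} [Fintype ι] [DecidableEq ι] (a : CStarMatrix ι ι A) : ℝ :=
  ⨆ n : ℕ, σ.τ ι (cfc (fun t : ℝ => min 1 ((n : ℝ) * t)) a)

/-- Cuntz subequivalence of square matrices over `A`. -/
def Cu {ι κ : Type} [Fintype ι] [DecidableEq ι] [Fintype κ] [DecidableEq κ]
    (a : CStarMatrix ι ι A) (b : CStarMatrix κ κ A) : Prop :=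
  ∀ ε : ℝ, 0 < ε → ∃ v : CStarMatrix ι κ A, ‖v * b * v.conjTranspose - a‖ < ε

variable (A)

/-- The comparison property with gap `r` which occurs in the definition of `rc`. -/
def HasComp (r : ℝ) : Prop :=
  ∀ (ι κ : Type) [Fintype ι] [DecidableEq ι] [Fintype κ] [DecidableEq κ]
    (a : CStarMatrix ι ι A) (b : CStarMatrix κ κ A), 0 ≤ a → 0 ≤ b →
    (∀ σ : QTrace A, σ.d a + r < σ.d b) → Cu a b

/-- The radius of comparison. -/
def rc : ℝ≥0∞ := ⨅ (r : ℝ≥0) (_ : HasComp A r), (r : ℝ≥0∞)

/-- `A` is a simple C*-algebra. -/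
def IsSimpleC : Prop :=
  Nontrivial A ∧ ∀ I : TwoSidedIdeal A, IsClosed (I : Set A) → I = ⊥ ∨ I = ⊤

end

section
variable {A : Type u} [CStarAlgebra A]

/-- An action of the group `G` on `A`. -/
def IsAct {G : Type} [Group G] (α : G → A ≃⋆ₐ[ℂ] A) : Prop :=
  ∀ (g h : G) (a : A), α (g * h) a = α g (α h a)

/-- `j : B → A` identifies `B` with the fixed point algebra of `α`. -/
def IsFix {B : Type u} [CStarAlgebra B] {G : Type} (α : G → A ≃⋆ₐ[ℂ] A) (j : B →⋆ₐ[ℂ] A) : Prop :=
  Function.Injective j ∧ ∀ a : A, (∀ g, α g a = a) ↔ ∃ b, j b = a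

/-- `R` is the crossed product of `A` by the finite group `G`: it is generated by a copy `k A`
of `A` and by unitaries `u g` implementing the action, and every element is uniquely of the form
`∑ k (f g) * u g`. -/
def IsCross {R : Type u} [CStarAlgebra R] {G : Type} [Group G] [Fintype G]
    (α : G → A ≃⋆ₐ[ℂ] A) (k : A →⋆ₐ[ℂ] R) (u : G → R) : Prop :=
  (∀ g, u g ∈ unitary R) ∧ (∀ g h, u (g * h) = u g * u h) ∧
  (∀ g a, u g * k a * star (u g) = k (α g a)) ∧
  ∀ r : R, ∃! f : G → A, r = ∑ g, k (f g) * u g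

end

end RC
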