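import Pool.Agent.Helper10.RC.Homs

/-!
# MP_b55b7c_an: the final assembly
-/

open scoped ENNReal NNReal InnerProductSpace ComplexOrder
open Filter Topology

attribute [-instance] CStarMatrix.instAlgebra CStarMatrix.instModule CStarMatrix.instSMul
  CStarMatrix.instMulAction CStarMatrix.instDistribMulAction

noncomputable section
namespace RC
universe u

section
variable {A : Type u} [CStarAlgebra A] [PartialOrder A] [StarOrderedRing A]

theorem hasComp_iff (hL : LimEqP.{u}) (r : ℝ) : HasComp A r ↔ HasCompD A r := by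
  constructor
  · intro h ι κ _ _ _ _ a b ha hb hlt
    refine h ι κ a b ha hb fun σ => ?_
    rw [hL A σ ι a ha, hL A σ κ b hb]
    exact hlt σ
  · intro h ι κ _ _ _ _ a b ha hb hlt
    refine h ι κ a b ha hb fun σ => ?_
    rw [← hL A σ ι a ha, ← hL A σ κ b hb]
    exact hlt σ

/-- The average of a tracial state over a finite group. -/
def avg (φ : TState A) {G : Type} [Group G] [Fintype G] (α : G → A ≃⋆ₐ[ℂ] A) : TState A where
  φ := (Fintype.card G : ℂ)⁻¹ • ∑ g, φ.φ ∘ₗ ((α g : A ≃⋆ₐ[ℂ] A).toAlgEquiv.toLinearMap)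
  nonneg a ha := by
    simp only [LinearMap.smul_apply, LinearMap.sum_apply, LinearMap.comp_apply, smul_eq_mul]
    refine mul_nonneg (by positivity) (Finset.sum_nonneg fun g _ => φ.nonneg _ ?_)
    exact map_nonneg (α g) ha
  trace a b := by
    simp only [LinearMap.smul_apply, LinearMap.sum_apply, LinearMap.comp_apply, smul_eq_mul]
    congr 1
    refine Finset.sum_congr rfl fun g _ => ?_
    show φ.φ (α g (a * b)) = φ.φ (α g (b * a))
    rw [map_mul (α g), map_mul (α g), φ.trace]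
  one := by
    simp only [LinearMap.smul_apply, LinearMap.sum_apply, LinearMap.comp_apply, smul_eq_mul]
    have : ∀ g, φ.φ ((α g : A ≃⋆ₐ[ℂ] A).toAlgEquiv.toLinearMap 1) = 1 := by
      intro g
      show φ.φ (α g 1) = 1
      rw [map_one (α g), φ.one]
    simp only [this, Finset.sum_const, Finset.card_univ, nsmul_eq_mul, mul_one]
    exact inv_mul_cancel₀ (by exact_mod_cast Fintype.card_ne_zero)

theorem avg_apply (φ : TState A) {G : Type} [Group G] [Fintype G] (α : G → A ≃⋆ₐ[ℂ] A) (x : A) :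
    (avg φ α).φ x = (Fintype.card G : ℂ)⁻¹ * ∑ g, φ.φ (α g x) := by
  show ((Fintype.card G : ℂ)⁻¹ • ∑ g, φ.φ ∘ₗ ((α g : A ≃⋆ₐ[ℂ] A).toAlgEquiv.toLinearMap)) x = _
  simp only [LinearMap.smul_apply, LinearMap.sum_apply, LinearMap.comp_apply, smul_eq_mul]
  rfl

omit [PartialOrder A] [StarOrderedRing A] in
theorem IsAct.one_apply {G : Type} [Group G] {α : G → A ≃⋆ₐ[ℂ] A} (h : IsAct α) (a : A) :
    α 1 a = a := by
  have := h 1 1 a
  rw [mul_one] at this
  exact ((α 1).injective this).symm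

theorem avg_inv (φ : TState A) {G : Type} [Group G] [Fintype G] (α : G → A ≃⋆ₐ[ℂ] A)
    (h : IsAct α) (g : G) (x : A) : (avg φ α).φ (α g x) = (avg φ α).φ x := by
  rw [avg_apply, avg_apply]
  congr 1
  exact Fintype.sum_equiv (Equiv.mulRight g) _ _ fun k => by
    rw [Equiv.coe_mulRight, h k g x]

theorem le_avg (φ : TState A) {G : Type} [Group G] [Fintype G] (α : G → A ≃⋆ₐ[ℂ] A)
    (h : IsAct α) (x : A) (hx : 0 ≤ x) :
    (φ.φ x).re ≤ Fintype.card G * ((avg φ α).φ x).re := by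
  rw [avg_apply]
  have h1 : ((Fintype.card G : ℂ)⁻¹ * ∑ g, φ.φ (α g x)).re =
      (Fintype.card G : ℝ)⁻¹ * ∑ g, (φ.φ (α g x)).re := by
    have : ((Fintype.card G : ℂ)⁻¹) = (((Fintype.card G : ℝ)⁻¹ : ℝ) : ℂ) := by push_cast; rfl
    rw [this, Complex.re_ofReal_mul, Complex.re_sum]
  rw [h1, ← mul_assoc, mul_inv_cancel₀ (by exact_mod_cast Fintype.card_ne_zero), one_mul]
  have h2 : ∀ g, 0 ≤ (φ.φ (α g x)).re := fun g =>
    (Complex.le_def.1 (φ.nonneg _ (map_nonneg (α g) hx))).1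
  calc (φ.φ x).re = (φ.φ (α 1 x)).re := by rw [h.one_apply]
    _ ≤ _ := Finset.single_le_sum (f := fun g => (φ.φ (α g x)).re) (fun g _ => h2 g)
      (Finset.mem_univ 1)

theorem dom_avg (hB : QBasicP.{u}) (φ : TState A) (C : ℝ) (hC0 : 0 ≤ C)
    (hC : ∀ (σ : QTrace A) (x : A), 0 ≤ x → σ.τ Unit (one1 x) ≤ C * (φ.φ x).re)
    {G : Type} [Group G] [Fintype G] (α : G → A ≃⋆ₐ[ℂ] A) (h : IsAct α)
    (σ₀ : QTrace A) (hσ₀ : IsQ (avg φ α) σ₀) : Dom1 σ₀ (C * Fintype.card G) := by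
  intro σ x hx
  refine ciSup_le fun n => ?_
  have hsa := hx.isSelfAdjoint
  rw [← one1_cfc _ (by fun_prop) x hsa]
  have h0 : 0 ≤ cfc (fun t : ℝ => min 1 ((n : ℝ) * t)) x := cfc_nonneg fun t ht =>
    le_min zero_le_one (mul_nonneg (by positivity) (spectrum_nonneg_of_nonneg hx ht))
  have h1 := hC σ _ h0
  have h2 := le_avg φ α h _ h0
  have h3 : σ₀.τ Unit (one1 (cfc (fun t : ℝ => min 1 ((n : ℝ) * t)) x)) =
      ((avg φ α).φ (cfc (fun t : ℝ => min 1 ((n : ℝ) * t)) x)).re := by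
    rw [hσ₀ Unit]; simp [one1]
  have h4 : σ₀.τ Unit (one1 (cfc (fun t : ℝ => min 1 ((n : ℝ) * t)) x)) ≤
      σ₀.dim (one1 x) := by
    rw [one1_cfc _ (by fun_prop) x hsa]
    exact le_ciSup (hB A σ₀ Unit (one1 x) (one1_nonneg hx)).1 n
  rw [h3] at h4
  calc _ ≤ _ := h1
    _ ≤ C * (Fintype.card G * σ₀.dim (one1 x)) := by
      refine mul_le_mul_of_nonneg_left (h2.trans ?_) hC0
      exact mul_le_mul_of_nonneg_left h4 (by positivity)
    _ = _ := by ring

end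

/-- The conclusion for the fixed point algebra. -/
theorem fixed_le (hL : LimEqP.{u}) (hC : CritP.{u})
    (A : Type u) [CStarAlgebra A] [PartialOrder A] [StarOrderedRing A]
    (B : Type u) [CStarAlgebra B] [PartialOrder B] [StarOrderedRing B]
    (G : Type) [Group G] [Fintype G] (α : G → A ≃⋆ₐ[ℂ] A) (j : B →⋆ₐ[ℂ] A)
    (hα : IsAct α) (hj : IsFix α j) (hs : Simp A) (h1 : TComp A) (h2 : TDiv B) :
    rc A ≤ rc B := by
  refine le_iInf₂ fun r hr => ?_
  refine ENNReal.le_of_forall_pos_le_add fun ε hε _ => ?_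
  have h3 : HasComp A ((r + ε : ℝ≥0) : ℝ) := by
    rw [hasComp_iff hL]
    refine hC A B G α j hα hj hs h1 h2 r _ r.2 ?_ ((hasComp_iff hL _).1 hr)
    push_cast
    have : (0 : ℝ) < ε := by exact_mod_cast hε
    linarith
  calc rc A ≤ ((r + ε : ℝ≥0) : ℝ≥0∞) := iInf₂_le (r + ε) h3
    _ = _ := by push_cast; rfl

/-- The conclusion for the crossed product, from the matrix algebra. -/
theorem cross_le (hL : LimEqP.{u}) (hC : CritP.{u}) (hR : RedCompP.{u})
    (A : Type u) [CStarAlgebra A] [PartialOrder A] [StarOrderedRing A]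
    (R : Type u) [CStarAlgebra R] [PartialOrder R] [StarOrderedRing R]
    (G : Type) [Group G] [Fintype G] [DecidableEq G]
    (β : G → CStarMatrix G G A ≃⋆ₐ[ℂ] CStarMatrix G G A) (j : R →⋆ₐ[ℂ] CStarMatrix G G A)
    (hβ : IsAct β) (hj : IsFix β j) (hs : Simp (CStarMatrix G G A))
    (h1 : TComp (CStarMatrix G G A)) (h2 : TDiv R) :
    rc A / Fintype.card G ≤ rc R := by
  refine le_iInf₂ fun r hr => ?_
  refine ENNReal.le_of_forall_pos_le_add fun ε hε _ => ?_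
  have h3 : HasComp A ((Fintype.card G * (r + ε) : ℝ≥0) : ℝ) := by
    rw [hasComp_iff hL]
    push_cast
    refine hR A G _ ?_
    refine hC (CStarMatrix G G A) R G β j hβ hj hs h1 h2 r _ r.2 ?_ ((hasComp_iff hL _).1 hr)
    have : (0 : ℝ) < ε := by exact_mod_cast hε
    linarith
  have h4 : rc A ≤ ((Fintype.card G * (r + ε) : ℝ≥0) : ℝ≥0∞) :=
    iInf₂_le (f := fun (r : ℝ≥0) (_ : HasComp A r) => (r : ℝ≥0∞)) _ h3
  have h5 : ((Fintype.card G * (r + ε) : ℝ≥0) : ℝ≥0∞) =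
      ((r : ℝ≥0∞) + (ε : ℝ≥0∞)) * Fintype.card G := by push_cast; ring
  rw [h5] at h4
  exact ENNReal.div_le_of_le_mul h4

theorem final (hL : LimEqP.{u}) (hC : CritP.{u}) (hR : RedCompP.{u}) (hB : QBasicP.{u})
    (hT : QOfTP.{u}) (hTC : TCompP.{u}) (hTD : TDivP.{u}) (hDM : DomMatP.{u})
    (hX : CrossP.{u}) (hMS : MatSimpP.{u}) (hSi : SimpP.{u})
    (A : Type u) [CStarAlgebra A] [PartialOrder A] [StarOrderedRing A]
    (hs : IsSimpleC A) (hinf : ¬ FiniteDimensional ℂ A) (φ : TState A) (C : ℝ)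
    (hCd : ∀ (σ : QTrace A) (x : A), 0 ≤ x → σ.τ Unit (one1 x) ≤ C * (φ.φ x).re)
    (G : Type) [Group G] [Fintype G] (α : G → A ≃⋆ₐ[ℂ] A) (hα : IsAct α) :
    (∀ (B : Type u) [CStarAlgebra B] [PartialOrder B] [StarOrderedRing B] (j : B →⋆ₐ[ℂ] A),
      IsFix α j → rc A ≤ rc B) ∧
    (∀ (R : Type u) [CStarAlgebra R] [PartialOrder R] [StarOrderedRing R] (k : A →⋆ₐ[ℂ] R)
      (w : G → R), IsCross α k w → rc A / Fintype.card G ≤ rc R) := by
  classical
  have hC0 : 0 ≤ C := by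
    obtain ⟨σ, hσ⟩ := hT A φ
    have h1 := hCd σ 1 zero_le_one
    rw [hσ Unit, φ.one] at h1
    simp only [Complex.one_re, mul_one] at h1
    have h2 : (∑ i : Unit, (φ.φ ((one1 (1 : A)) i i)).re) = 1 := by
      simp [one1, φ.one]
    rw [h2] at h1
    linarith
  obtain ⟨σ₀, hσ₀⟩ := hT A (avg φ α)
  have hD := dom_avg hB φ C hC0 hCd α hα σ₀ hσ₀
  have hC0' : 0 ≤ C * Fintype.card G := by positivity
  have hsA := hSi A hs
  have hcomp := hTC A (avg φ α) σ₀ _ hσ₀ hC0' hD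
  refine ⟨?_, ?_⟩
  · intro B _ _ _ j hj
    exact fixed_le hL hC A B G α j hα hj hsA hcomp
      (hTD A B G α j hα hj hsA hinf (avg φ α) σ₀ _ hσ₀ hC0' hD (avg_inv φ α hα))
  · intro R _ _ _ k w hk
    obtain ⟨β, jR, hβ, hjR, htr⟩ := hX A G α R k w hα hk
    obtain ⟨φ', σ', C', hC', hQ', hD', hφ'⟩ := hDM A (avg φ α) σ₀ _ hσ₀ hC0' hD G
    refine cross_le hL hC hR A R G β jR hβ hjR ((hMS A G).1 hsA)
      (hTC _ φ' σ' C' hQ' hC' hD') ?_
    refine hTD _ R G β jR hβ hjR ((hMS A G).1 hsA) ((hMS A G).2 hinf) φ' σ' C' hQ' hC' hD' ?_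
    intro g T
    rw [hφ', hφ', htr (avg φ α).φ (avg_inv φ α hα) g T]

end RC
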