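import Pool.Agent.Helper10.RC.Basic

/-!
# MP_b55b7c_an: the functional calculus and the homomorphisms `one1`, `dg`, `mp`
-/

open scoped ENNReal NNReal InnerProductSpace ComplexOrder
open Filter Topology

attribute [-instance] CStarMatrix.instAlgebra CStarMatrix.instModule CStarMatrix.instSMul
  CStarMatrix.instMulAction CStarMatrix.instDistribMulAction

set_option linter.unusedSectionVars false

noncomputable section
namespace RC
universe u

variable {A : Type u} [CStarAlgebra A] [PartialOrder A] [StarOrderedRing A]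
variable {ι κ μ ν : Type} [Fintype ι] [DecidableEq ι] [Fintype κ] [DecidableEq κ]
  [Fintype μ] [DecidableEq μ] [Fintype ν] [DecidableEq ν]

theorem cm_csmul_apply (c : ℂ) (x : CStarMatrix ι κ A) (i : ι) (j : κ) :
    (c • x) i j = c • x i j := rfl

theorem cm_algebraMap_apply (c : ℂ) (i j : ι) :
    (algebraMap ℂ (CStarMatrix ι ι A) c) i j = if i = j then algebraMap ℂ A c else 0 := by
  rw [Algebra.algebraMap_eq_smul_one, cm_csmul_apply, CStarMatrix.one_apply,
    Algebra.algebraMap_eq_smul_one]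
  split_ifs <;> simp

theorem dg_apply (f : A) (i j : κ) : dg κ f i j = if i = j then f else 0 := rfl

/-- `dg κ` as a *-homomorphism. -/
def dgH (κ : Type) [Fintype κ] [DecidableEq κ] : A →⋆ₐ[ℂ] CStarMatrix κ κ A where
  toFun := dg κ
  map_one' := by
    ext i j
    rw [dg_apply, CStarMatrix.one_apply]
  map_mul' x y := by
    ext i j
    rw [CStarMatrix.mul_apply, Finset.sum_eq_single i
      (by intro b _ hb; rw [dg_apply, if_neg (Ne.symm hb), zero_mul]) (by simp)]
    simp only [dg_apply, if_true]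
    split_ifs <;> simp
  map_zero' := by
    ext i j
    rw [dg_apply]; simp
  map_add' x y := by
    ext i j
    simp only [dg_apply, CStarMatrix.add_apply]
    split_ifs <;> simp
  commutes' c := by
    ext i j
    rw [cm_algebraMap_apply, dg_apply]
  map_star' x := by
    ext i j
    rw [CStarMatrix.star_apply, dg_apply, dg_apply]
    by_cases h : i = j
    · simp [h]
    · simp [h, Ne.symm h]

theorem dgH_apply (x : A) : dgH κ x = dg κ x := rfl

/-- `one1` as a *-homomorphism. -/
def one1H : A →⋆ₐ[ℂ] CStarMatrix Unit Unit A where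
  toFun := one1
  map_one' := by
    ext i j
    simp [one1]
  map_mul' x y := by
    ext i j
    rw [CStarMatrix.mul_apply]
    simp [one1]
  map_zero' := by
    ext i j
    simp [one1]
  map_add' x y := by
    ext i j
    simp [one1]
  commutes' c := by
    ext i j
    rw [cm_algebraMap_apply]
    simp [one1]
  map_star' x := by
    ext i j
    rw [CStarMatrix.star_apply]
    simp [one1]

theorem one1H_apply (x : A) : one1H x = one1 x := rfl

theorem starHom_cfc {D E : Type u} [CStarAlgebra D] [CStarAlgebra E] (Φ : D →⋆ₐ[ℂ] E)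
    (f : ℝ → ℝ) (hf : Continuous f) (a : D) (ha : IsSelfAdjoint a) :
    Φ (cfc f a) = cfc f (Φ a) := by
  have hc : Continuous Φ := by
    have := NonUnitalStarAlgHom.instContinuousLinearMapClassComplex (F := D →⋆ₐ[ℂ] E)
    exact map_continuous Φ
  exact StarAlgHomClass.map_cfc Φ f a hf.continuousOn hc ha (ha.map Φ)

theorem dg_cfc (f : ℝ → ℝ) (hf : Continuous f) (a : A) (ha : IsSelfAdjoint a) :
    dg κ (cfc f a) = cfc f (dg κ a) := starHom_cfc (dgH κ) f hf a ha

theorem one1_cfc (f : ℝ → ℝ) (hf : Continuous f) (a : A) (ha : IsSelfAdjoint a) :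
    one1 (cfc f a) = cfc f (one1 a) := starHom_cfc one1H f hf a ha

theorem dg_nonneg {a : A} (ha : 0 ≤ a) : 0 ≤ dg κ a := map_nonneg (dgH κ) ha

theorem one1_nonneg {a : A} (ha : 0 ≤ a) : 0 ≤ one1 a := map_nonneg one1H ha

theorem cut_dg {a : A} (ha : IsSelfAdjoint a) (ε : ℝ) : cut (dg κ a) ε = dg κ (cut a ε) :=
  (dg_cfc _ (by fun_prop) a ha).symm

theorem cut_one1 {a : A} (ha : IsSelfAdjoint a) (ε : ℝ) : cut (one1 a) ε = one1 (cut a ε) :=
  (one1_cfc _ (by fun_prop) a ha).symm

/-- The inclusion of the first summand. -/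
def inlM (A : Type u) [CStarAlgebra A] (ι κ : Type) [DecidableEq ι] :
    CStarMatrix (ι ⊕ κ) ι A :=
  CStarMatrix.ofMatrix (Matrix.fromRows (1 : Matrix ι ι A) (0 : Matrix κ ι A))

/-- The inclusion of the second summand. -/
def inrM (A : Type u) [CStarAlgebra A] (ι κ : Type) [DecidableEq κ] :
    CStarMatrix (ι ⊕ κ) κ A :=
  CStarMatrix.ofMatrix (Matrix.fromRows (0 : Matrix ι κ A) (1 : Matrix κ κ A))

theorem inlM_conj (a : CStarMatrix ι ι A) :
    inlM A ι κ * a * (inlM A ι κ).conjTranspose = dsum a (0 : CStarMatrix κ κ A) := by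
  show Matrix.fromRows (1 : Matrix ι ι A) (0 : Matrix κ ι A) * (show Matrix ι ι A from a) *
    (Matrix.fromRows (1 : Matrix ι ι A) (0 : Matrix κ ι A)).conjTranspose =
    Matrix.fromBlocks (show Matrix ι ι A from a) 0 0 0
  rw [Matrix.fromRows_mul, Matrix.conjTranspose_fromRows_eq_fromCols_conjTranspose,
    Matrix.fromRows_mul_fromCols]
  simp

theorem inrM_conj (b : CStarMatrix κ κ A) :
    inrM A ι κ * b * (inrM A ι κ).conjTranspose = dsum (0 : CStarMatrix ι ι A) b := by
  show Matrix.fromRows (0 : Matrix ι κ A) (1 : Matrix κ κ A) * (show Matrix κ κ A from b) *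
    (Matrix.fromRows (0 : Matrix ι κ A) (1 : Matrix κ κ A)).conjTranspose =
    Matrix.fromBlocks 0 0 0 (show Matrix κ κ A from b)
  rw [Matrix.fromRows_mul, Matrix.conjTranspose_fromRows_eq_fromCols_conjTranspose,
    Matrix.fromRows_mul_fromCols]
  simp

theorem dsum_eq_add (a : CStarMatrix ι ι A) (b : CStarMatrix κ κ A) :
    dsum a b = dsum a 0 + dsum 0 b := by
  show Matrix.fromBlocks (show Matrix ι ι A from a) 0 0 (show Matrix κ κ A from b) =
    Matrix.fromBlocks (show Matrix ι ι A from a) 0 0 (0 : Matrix κ κ A) +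
    Matrix.fromBlocks (0 : Matrix ι ι A) 0 0 (show Matrix κ κ A from b)
  rw [Matrix.fromBlocks_add]
  simp

theorem dsum_nonneg {a : CStarMatrix ι ι A} {b : CStarMatrix κ κ A} (ha : 0 ≤ a) (hb : 0 ≤ b) :
    0 ≤ dsum a b := by
  rw [dsum_eq_add, ← inlM_conj, ← inrM_conj]
  exact add_nonneg (cm_conj_nonneg _ ha) (cm_conj_nonneg _ hb)

theorem Cu.refl (a : CStarMatrix ι ι A) : Cu a a := fun ε hε => ⟨1, by
  rw [cm_one_mul, cm_conj_one, cm_mul_one, sub_self, norm_zero]; exact hε⟩

theorem mp_one1 {B : Type u} (j : B → A) (b : B) : mp j (one1 b) = one1 (j b) := rfl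

end RC
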