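import Pool.Agent.Helper10.RC.Defs

/-!
# MP_b55b7c_an: the statements of the packets
-/

open scoped ENNReal NNReal InnerProductSpace ComplexOrder
open Filter Topology

attribute [-instance] CStarMatrix.instAlgebra CStarMatrix.instModule CStarMatrix.instSMul
  CStarMatrix.instMulAction CStarMatrix.instDistribMulAction

noncomputable section
namespace RC
universe u

/-! ## Definitions used by the proof only -/

/-- Algebraic simplicity. -/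
def Simp (A : Type u) [CStarAlgebra A] : Prop :=
  Nontrivial A ∧ ∀ x : A, x ≠ 0 → ∃ (n : ℕ) (p q : Fin n → A), ∑ i, p i * x * q i = 1

/-- Entrywise image of a matrix. -/
def mp {A B : Type u} {ι κ : Type} (j : B → A) (x : CStarMatrix ι κ B) : CStarMatrix ι κ A :=
  x.map j

/-- A matrix over a matrix algebra as a matrix. -/
def flat {A : Type u} {ι κ ν : Type} (X : CStarMatrix ι κ (CStarMatrix ν ν A)) :
    CStarMatrix (ι × ν) (κ × ν) A :=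
  CStarMatrix.ofMatrix fun p q => X p.1 q.1 p.2 q.2

/-- `σ` is the quasitrace given by the tracial state `φ`. -/
def IsQ {A : Type u} [CStarAlgebra A] [PartialOrder A] [StarOrderedRing A]
    (φ : TState A) (σ : QTrace A) : Prop :=
  ∀ (ι : Type) [Fintype ι] [DecidableEq ι] (a : CStarMatrix ι ι A),
    σ.τ ι a = ∑ i, (φ.φ (a i i)).re

/-- The comparison property in terms of `dim`. -/
def HasCompD (A : Type u) [CStarAlgebra A] [PartialOrder A] [StarOrderedRing A] (r : ℝ) : Prop :=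
  ∀ (ι κ : Type) [Fintype ι] [DecidableEq ι] [Fintype κ] [DecidableEq κ]
    (a : CStarMatrix ι ι A) (b : CStarMatrix κ κ A), 0 ≤ a → 0 ≤ b →
    (∀ σ : QTrace A, σ.dim a + r < σ.dim b) → Cu a b

/-- Tracial comparison: strict comparison up to a uniformly tracially small error. -/
def TComp (A : Type u) [CStarAlgebra A] [PartialOrder A] [StarOrderedRing A] : Prop :=
  ∀ (ι κ : Type) [Fintype ι] [DecidableEq ι] [Fintype κ] [DecidableEq κ]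
    (a : CStarMatrix ι ι A) (b : CStarMatrix κ κ A), 0 ≤ a → 0 ≤ b →
    (∀ σ : QTrace A, σ.dim a < σ.dim b) → ∀ δ : ℝ, 0 < δ →
    ∃ (y : CStarMatrix κ ι A) (c : CStarMatrix ι ι A), 0 ≤ c ∧
      a ≤ y.conjTranspose * b * y + c + δ • (1 : CStarMatrix ι ι A) ∧
      ∀ σ : QTrace A, σ.dim c < δ

/-- Tracial divisibility of the unit. -/
def TDiv (B : Type u) [CStarAlgebra B] [PartialOrder B] [StarOrderedRing B] : Prop :=
  ∀ (N : ℕ) (δ : ℝ), 0 < δ → ∃ L : ℕ, N ≤ L ∧ 0 < L ∧ ∃ f : B, 0 ≤ f ∧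
    (∃ (s : Fin L → B) (c : B), 0 ≤ c ∧ 1 ≤ ∑ i, s i * f * star (s i) + c + δ • (1 : B) ∧
      ∀ ω : QTrace B, ω.dim (one1 c) < δ) ∧
    ∀ ω : QTrace B, (L : ℝ) * ω.dim (one1 f) < 1 + δ

/-! ## Cuntz comparison -/

def CuTransP : Prop := ∀ (A : Type u) [CStarAlgebra A] [PartialOrder A] [StarOrderedRing A]
  (ι κ μ : Type) [Fintype ι] [DecidableEq ι] [Fintype κ] [DecidableEq κ] [Fintype μ]
  [DecidableEq μ] (a : CStarMatrix ι ι A) (b : CStarMatrix κ κ A) (c : CStarMatrix μ μ A),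
  Cu a b → Cu b c → Cu a c

def CuOfCutP : Prop := ∀ (A : Type u) [CStarAlgebra A] [PartialOrder A] [StarOrderedRing A]
  (ι κ : Type) [Fintype ι] [DecidableEq ι] [Fintype κ] [DecidableEq κ]
  (a : CStarMatrix ι ι A) (b : CStarMatrix κ κ A), 0 ≤ a →
  (∀ ε : ℝ, 0 < ε → Cu (cut a ε) b) → Cu a b

def CuDsumP : Prop := ∀ (A : Type u) [CStarAlgebra A] [PartialOrder A] [StarOrderedRing A]
  (ι κ ι' κ' : Type) [Fintype ι] [DecidableEq ι] [Fintype κ] [DecidableEq κ]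
  [Fintype ι'] [DecidableEq ι'] [Fintype κ'] [DecidableEq κ']
  (a : CStarMatrix ι ι A) (b : CStarMatrix κ κ A) (a' : CStarMatrix ι' ι' A)
  (b' : CStarMatrix κ' κ' A), Cu a b → Cu a' b' → Cu (dsum a a') (dsum b b')

def CuLeAddP : Prop := ∀ (A : Type u) [CStarAlgebra A] [PartialOrder A] [StarOrderedRing A]
  (ι : Type) [Fintype ι] [DecidableEq ι] (a b : CStarMatrix ι ι A) (ε : ℝ), 0 ≤ ε → 0 ≤ a →
  0 ≤ b → a ≤ b + ε • (1 : CStarMatrix ι ι A) → Cu (cut a ε) b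

def CuSwapP : Prop := ∀ (A : Type u) [CStarAlgebra A] [PartialOrder A] [StarOrderedRing A]
  (ι κ : Type) [Fintype ι] [DecidableEq ι] [Fintype κ] [DecidableEq κ]
  (z : CStarMatrix ι κ A) (ε : ℝ), 0 ≤ ε →
  Cu (cut (z * z.conjTranspose) ε) (cut (z.conjTranspose * z) ε)

/-- `(a + b - s - t)_+ ≼ (a - s)_+ ⊕ (b - t)_+`. -/
def CuAddP : Prop := ∀ (A : Type u) [CStarAlgebra A] [PartialOrder A] [StarOrderedRing A]
  (ι : Type) [Fintype ι] [DecidableEq ι] (a b : CStarMatrix ι ι A) (s t : ℝ), 0 ≤ s → 0 ≤ t →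
  0 ≤ a → 0 ≤ b → Cu (cut (a + b) (s + t)) (dsum (cut a s) (cut b t))

/-- `z F(z* z) = F(z z*) z`. -/
def IntP : Prop := ∀ (A : Type u) [CStarAlgebra A] [PartialOrder A] [StarOrderedRing A]
  (ι κ : Type) [Fintype ι] [DecidableEq ι] [Fintype κ] [DecidableEq κ]
  (z : CStarMatrix ι κ A) (F : ℝ → ℝ), Continuous F →
  z * cfc F (z.conjTranspose * z) = cfc F (z * z.conjTranspose) * z

/-- If `0 ≤ P ≤ z* z` then `P = L L*` where `L` is a limit of multiples of `z*`. -/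
def PedP : Prop := ∀ (A : Type u) [CStarAlgebra A] [PartialOrder A] [StarOrderedRing A]
  (ι κ : Type) [Fintype ι] [DecidableEq ι] [Fintype κ] [DecidableEq κ]
  (P : CStarMatrix ι ι A) (z : CStarMatrix κ ι A), 0 ≤ P → P ≤ z.conjTranspose * z →
  ∃ L : CStarMatrix ι κ A, L * L.conjTranspose = P ∧
    ∀ f : CStarMatrix κ κ A, z.conjTranspose * f = z.conjTranspose → L * f = L

/-! ## Quasitraces -/

def QSwapP : Prop := ∀ (A : Type u) [CStarAlgebra A] [PartialOrder A] [StarOrderedRing A]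
  (σ : QTrace A) (ι κ : Type) [Fintype ι] [DecidableEq ι] [Fintype κ] [DecidableEq κ]
  (L : CStarMatrix ι κ A) (F : ℝ → ℝ) (δ : ℝ), Continuous F → 0 < δ → (∀ t ≤ δ, F t = 0) →
  (∀ t, 0 ≤ F t) →
  σ.τ ι (cfc F (L * L.conjTranspose)) = σ.τ κ (cfc F (L.conjTranspose * L))

def QBasicP : Prop := ∀ (A : Type u) [CStarAlgebra A] [PartialOrder A] [StarOrderedRing A]
  (σ : QTrace A) (ι : Type) [Fintype ι] [DecidableEq ι] (a : CStarMatrix ι ι A), 0 ≤ a →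
  BddAbove (Set.range fun n : ℕ => σ.τ ι (cfc (fun t : ℝ => min 1 ((n : ℝ) * t)) a)) ∧
  0 ≤ σ.dim a ∧ σ.dim a ≤ Fintype.card ι ∧ (a ≤ 1 → σ.τ ι a ≤ σ.dim a)

def QCutP : Prop := ∀ (A : Type u) [CStarAlgebra A] [PartialOrder A] [StarOrderedRing A]
  (σ : QTrace A) (ι : Type) [Fintype ι] [DecidableEq ι] (c : CStarMatrix ι ι A) (δ : ℝ), 0 ≤ c →
  0 < δ → δ * σ.dim (cut c δ) ≤ σ.τ ι c

def QOneP : Prop := ∀ (A : Type u) [CStarAlgebra A] [PartialOrder A] [StarOrderedRing A]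
  (σ : QTrace A) (ι : Type) [Fintype ι] [DecidableEq ι],
  σ.τ ι 1 = Fintype.card ι ∧ σ.dim (1 : CStarMatrix ι ι A) = Fintype.card ι

def QDsumP : Prop := ∀ (A : Type u) [CStarAlgebra A] [PartialOrder A] [StarOrderedRing A]
  (σ : QTrace A) (ι κ : Type) [Fintype ι] [DecidableEq ι] [Fintype κ] [DecidableEq κ]
  (a : CStarMatrix ι ι A) (b : CStarMatrix κ κ A), 0 ≤ a → 0 ≤ b →
  0 ≤ dsum a b ∧ σ.dim (dsum a b) = σ.dim a + σ.dim b

def QDgP : Prop := ∀ (A : Type u) [CStarAlgebra A] [PartialOrder A] [StarOrderedRing A]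
  (σ : QTrace A) (κ : Type) [Fintype κ] [DecidableEq κ] (f : A), 0 ≤ f →
  0 ≤ dg κ f ∧ σ.dim (dg κ f) = Fintype.card κ * σ.dim (one1 f)

def QMonoP : Prop := ∀ (A : Type u) [CStarAlgebra A] [PartialOrder A] [StarOrderedRing A]
  (σ : QTrace A) (ι κ : Type) [Fintype ι] [DecidableEq ι] [Fintype κ] [DecidableEq κ]
  (a : CStarMatrix ι ι A) (b : CStarMatrix κ κ A), 0 ≤ a → 0 ≤ b → Cu a b → σ.dim a ≤ σ.dim b

def LimEqP : Prop := ∀ (A : Type u) [CStarAlgebra A] [PartialOrder A] [StarOrderedRing A]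
  (σ : QTrace A) (ι : Type) [Fintype ι] [DecidableEq ι] (a : CStarMatrix ι ι A), 0 ≤ a →
  σ.d a = σ.dim a

def QOfTP : Prop := ∀ (A : Type u) [CStarAlgebra A] [PartialOrder A] [StarOrderedRing A]
  (φ : TState A), ∃ σ : QTrace A, IsQ φ σ

/-! ## Homomorphisms -/

/-- Entrywise images under a unital injective *-homomorphism. -/
def MpP : Prop := ∀ (A : Type u) [CStarAlgebra A] [PartialOrder A] [StarOrderedRing A]
  (B : Type u) [CStarAlgebra B] [PartialOrder B] [StarOrderedRing B] (j : B →⋆ₐ[ℂ] A),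
  Function.Injective j → ∀ (ι κ : Type) [Fintype ι] [DecidableEq ι] [Fintype κ] [DecidableEq κ]
  (x : CStarMatrix ι ι B) (y : CStarMatrix κ κ B),
  (0 ≤ x ↔ 0 ≤ mp j x) ∧ ‖mp j x‖ = ‖x‖ ∧ (Cu x y → Cu (mp j x) (mp j y)) ∧
  (∀ f : ℝ → ℝ, Continuous f → IsSelfAdjoint x → mp j (cfc f x) = cfc f (mp j x))

/-- Pullback of a quasitrace. -/
def QPullP : Prop := ∀ (A : Type u) [CStarAlgebra A] [PartialOrder A] [StarOrderedRing A]
  (B : Type u) [CStarAlgebra B] [PartialOrder B] [StarOrderedRing B] (j : B →⋆ₐ[ℂ] A),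
  Function.Injective j → ∀ σ : QTrace A, ∃ ω : QTrace B, ∀ (κ : Type) [Fintype κ] [DecidableEq κ]
    (x : CStarMatrix κ κ B), 0 ≤ x → ω.dim x = σ.dim (mp j x)

/-! ## Finite group actions on simple algebras -/

def SL1P : Prop := ∀ (A : Type u) [CStarAlgebra A] (G : Type) [Group G] [Fintype G]
  (α : G → A ≃⋆ₐ[ℂ] A), IsAct α → Simp A →
  ∃ (m : ℕ) (a b : Fin m → A) (z : G → A),
    (∀ g, z g = (Fintype.card G : ℂ)⁻¹ • ∑ i, a i * α g (b i)) ∧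
    (∀ (x : A) (g : G), x * z g = z g * α g x) ∧ ∑ g, z g = 1

def SL2P : Prop := ∀ (A : Type u) [CStarAlgebra A] [PartialOrder A] [StarOrderedRing A]
  (G : Type) [Group G] [Fintype G] (α : G → A ≃⋆ₐ[ℂ] A), IsAct α → Simp A →
  ∃ (m : ℕ) (c : Fin m → A) (z : G → A),
    (∀ g, z g = (Fintype.card G : ℂ)⁻¹ • ∑ i, c i * α g (star (c i))) ∧
    (∀ (x : A) (g : G), x * z g = z g * α g x) ∧ ∑ g, z g = 1

/-- The homomorphism `Θ` from matrices over `A` to matrices over the fixed point algebra `B`,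
and the rows `w` with `w Θ(x) w* = x` for matrices `x` over `B`. -/
def SB1P : Prop := ∀ (A : Type u) [CStarAlgebra A] [PartialOrder A] [StarOrderedRing A]
  (B : Type u) [CStarAlgebra B] [PartialOrder B] [StarOrderedRing B]
  (G : Type) [Group G] [Fintype G] (α : G → A ≃⋆ₐ[ℂ] A) (j : B →⋆ₐ[ℂ] A), IsAct α → IsFix α j →
  Simp A → ∃ (m : ℕ)
    (Θ : ∀ (ι κ : Type), CStarMatrix ι κ A → CStarMatrix (ι × Fin m) (κ × Fin m) B)
    (w : ∀ (κ : Type) [DecidableEq κ], CStarMatrix κ (κ × Fin m) B),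
    (∀ (ι κ μ : Type) [Fintype κ] (x : CStarMatrix ι κ A) (y : CStarMatrix κ μ A),
      Θ ι μ (x * y) = Θ ι κ x * Θ κ μ y) ∧
    (∀ (ι κ : Type) (x : CStarMatrix ι κ A), Θ κ ι x.conjTranspose = (Θ ι κ x).conjTranspose) ∧
    (∀ (ι κ : Type) (x y : CStarMatrix ι κ A), Θ ι κ (x + y) = Θ ι κ x + Θ ι κ y) ∧
    (∀ (ι κ : Type) [Fintype ι] [Fintype κ] (c : ℝ) (x : CStarMatrix ι κ A),
      Θ ι κ (c • x) = c • Θ ι κ x) ∧
    ∀ (κ : Type) [Fintype κ] [DecidableEq κ] (x : CStarMatrix κ κ B),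
      w κ * Θ κ κ (mp j x) * (w κ).conjTranspose = x

/-- Every quasitrace on the fixed point algebra is dominated by quasitraces on `A`. -/
def SBP : Prop := ∀ (A : Type u) [CStarAlgebra A] [PartialOrder A] [StarOrderedRing A]
  (B : Type u) [CStarAlgebra B] [PartialOrder B] [StarOrderedRing B]
  (G : Type) [Group G] [Fintype G] (α : G → A ≃⋆ₐ[ℂ] A) (j : B →⋆ₐ[ℂ] A), IsAct α → IsFix α j →
  Simp A → ∃ m : ℕ, ∀ ω : QTrace B, ∃ σ : QTrace A, ∀ (κ : Type) [Fintype κ] [DecidableEq κ]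
    (x : CStarMatrix κ κ B), 0 ≤ x → 0 ≤ mp j x ∧ ω.dim x ≤ m * σ.dim (mp j x)

/-! ## The criterion -/

/-- The cut-down step. -/
def CutDownP : Prop := ∀ (A : Type u) [CStarAlgebra A] [PartialOrder A] [StarOrderedRing A]
  (B : Type u) [CStarAlgebra B] [PartialOrder B] [StarOrderedRing B]
  (G : Type) [Group G] [Fintype G] (α : G → A ≃⋆ₐ[ℂ] A) (j : B →⋆ₐ[ℂ] A), IsAct α → IsFix α j →
  ∀ (ι κ : Type) [Fintype ι] [DecidableEq ι] [Fintype κ] [DecidableEq κ]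
    (a : CStarMatrix ι ι A) (b : CStarMatrix κ κ A) (f : B) (J : ℕ)
    (y : CStarMatrix κ (ι ⊕ Fin J) A) (c : CStarMatrix (ι ⊕ Fin J) (ι ⊕ Fin J) A) (δ s : ℝ),
    0 ≤ a → 0 ≤ b → 0 ≤ f → 0 ≤ c → 0 < δ →
    dsum a (dg (Fin J) (j f)) ≤ y.conjTranspose * b * y + c +
      δ • (1 : CStarMatrix (ι ⊕ Fin J) (ι ⊕ Fin J) A) →
    (∀ σ : QTrace A, σ.dim c ≤ s) →
    ∃ (a₁ : CStarMatrix ι ι A) (e₀ : CStarMatrix ι ι B) (e₁ d : CStarMatrix (Fin J) (Fin J) B),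
      0 ≤ a₁ ∧ 0 ≤ e₀ ∧ 0 ≤ e₁ ∧ 0 ≤ d ∧
      Cu (cut a (4 * δ)) (dsum a₁ (mp j e₀)) ∧
      Cu (dsum a₁ (mp j d)) b ∧
      Cu (cut (dg (Fin J) f) (4 * δ)) (dsum d e₁) ∧
      (∀ σ : QTrace A, σ.dim (mp j e₀) ≤ Fintype.card G * s) ∧
      (∀ σ : QTrace A, σ.dim (mp j e₁) ≤ Fintype.card G * s)

def LowBP : Prop := ∀ (B : Type u) [CStarAlgebra B] [PartialOrder B] [StarOrderedRing B]
  (L : ℕ) (f : B) (s : Fin L → B) (c : B) (δ : ℝ), 0 ≤ f → 0 ≤ c → δ < 1 →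
  1 ≤ ∑ i, s i * f * star (s i) + c + δ • (1 : B) →
  ∃ ε₀ : ℝ, 0 < ε₀ ∧ ∀ ε : ℝ, 0 < ε → ε ≤ ε₀ → ∀ ω : QTrace B,
    1 ≤ (L : ℝ) * ω.dim (one1 (cut f ε)) + ω.dim (one1 c)

/-- The criterion. -/
def CritP : Prop := ∀ (A : Type u) [CStarAlgebra A] [PartialOrder A] [StarOrderedRing A]
  (B : Type u) [CStarAlgebra B] [PartialOrder B] [StarOrderedRing B]
  (G : Type) [Group G] [Fintype G] (α : G → A ≃⋆ₐ[ℂ] A) (j : B →⋆ₐ[ℂ] A), IsAct α → IsFix α j →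
  Simp A → TComp A → TDiv B → ∀ ρ r : ℝ, 0 ≤ ρ → ρ < r → HasCompD B ρ → HasCompD A r

/-! ## Matrix algebras over matrix algebras -/

def FlatP : Prop := ∀ (A : Type u) [CStarAlgebra A] [PartialOrder A] [StarOrderedRing A]
  (ν : Type) [Fintype ν] [DecidableEq ν] (ι κ : Type) [Fintype ι] [DecidableEq ι]
  [Fintype κ] [DecidableEq κ] (X : CStarMatrix ι ι (CStarMatrix ν ν A))
  (Y : CStarMatrix κ κ (CStarMatrix ν ν A)),
  (0 ≤ X ↔ 0 ≤ flat X) ∧ (Cu X Y ↔ Cu (flat X) (flat Y)) ∧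
  (∀ f : ℝ → ℝ, Continuous f → 0 ≤ X → flat (cfc f X) = cfc f (flat X))

def RedUpP : Prop := ∀ (A : Type u) [CStarAlgebra A] [PartialOrder A] [StarOrderedRing A]
  (ν : Type) [Fintype ν] [DecidableEq ν] [Nonempty ν] (ω : QTrace A),
  ∃ ω' : QTrace (CStarMatrix ν ν A), ∀ (ι : Type) [Fintype ι] [DecidableEq ι]
    (X : CStarMatrix ι ι (CStarMatrix ν ν A)), 0 ≤ X →
    ω'.dim X = ω.dim (flat X) / Fintype.card ν

def RedDnP : Prop := ∀ (A : Type u) [CStarAlgebra A] [PartialOrder A] [StarOrderedRing A]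
  (ν : Type) [Fintype ν] [DecidableEq ν] [Nonempty ν] (σ' : QTrace (CStarMatrix ν ν A)),
  ∃ σ : QTrace A, ∀ (ι : Type) [Fintype ι] [DecidableEq ι]
    (X : CStarMatrix ι ι (CStarMatrix ν ν A)), 0 ≤ X →
    σ'.dim X = σ.dim (flat X) / Fintype.card ν

def RedCompP : Prop := ∀ (A : Type u) [CStarAlgebra A] [PartialOrder A] [StarOrderedRing A]
  (ν : Type) [Fintype ν] [DecidableEq ν] [Nonempty ν] (r : ℝ),
  HasCompD (CStarMatrix ν ν A) r → HasCompD A (Fintype.card ν * r)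

/-! ## Domination by a trace -/

/-- `C` times the rank function of `σ₀` dominates all rank functions. -/
def Dom1 {A : Type u} [CStarAlgebra A] [PartialOrder A] [StarOrderedRing A]
    (σ₀ : QTrace A) (C : ℝ) : Prop :=
  ∀ (σ : QTrace A) (x : A), 0 ≤ x → σ.dim (one1 x) ≤ C * σ₀.dim (one1 x)

def DomMP : Prop := ∀ (A : Type u) [CStarAlgebra A] [PartialOrder A] [StarOrderedRing A]
  (σ₀ : QTrace A) (C : ℝ), 0 ≤ C → Dom1 σ₀ C → ∀ (σ : QTrace A) (κ : Type) [Fintype κ]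
  [DecidableEq κ] (x : CStarMatrix κ κ A), 0 ≤ x →
  σ.dim x ≤ C * Fintype.card κ * σ₀.dim x

/-- Domination passes to matrix algebras. -/
def DomMatP : Prop := ∀ (A : Type u) [CStarAlgebra A] [PartialOrder A] [StarOrderedRing A]
  (φ : TState A) (σ₀ : QTrace A) (C : ℝ), IsQ φ σ₀ → 0 ≤ C → Dom1 σ₀ C →
  ∀ (ν : Type) [Fintype ν] [DecidableEq ν] [Nonempty ν],
  ∃ (φ' : TState (CStarMatrix ν ν A)) (σ' : QTrace (CStarMatrix ν ν A)) (C' : ℝ), 0 ≤ C' ∧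
    IsQ φ' σ' ∧ Dom1 σ' C' ∧ ∀ T, φ'.φ T = (Fintype.card ν : ℂ)⁻¹ * ∑ i, φ.φ (T i i)

/-- The scalar case of tracial comparison. -/
def TComp0P : Prop := ∀ (D : Type u) [CStarAlgebra D] [PartialOrder D] [StarOrderedRing D]
  (φ : TState D) (σ₀ : QTrace D) (C : ℝ), IsQ φ σ₀ → 0 ≤ C → Dom1 σ₀ C →
  ∀ a b : D, 0 ≤ a → 0 ≤ b → (∀ σ : QTrace D, σ.dim (one1 a) < σ.dim (one1 b)) →
  ∀ δ : ℝ, 0 < δ → ∃ y c : D, 0 ≤ c ∧ a ≤ star y * b * y + c + δ • (1 : D) ∧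
    ∀ σ : QTrace D, σ.dim (one1 c) < δ

def TCompP : Prop := ∀ (A : Type u) [CStarAlgebra A] [PartialOrder A] [StarOrderedRing A]
  (φ : TState A) (σ₀ : QTrace A) (C : ℝ), IsQ φ σ₀ → 0 ≤ C → Dom1 σ₀ C → TComp A

def TDivP : Prop := ∀ (A : Type u) [CStarAlgebra A] [PartialOrder A] [StarOrderedRing A]
  (B : Type u) [CStarAlgebra B] [PartialOrder B] [StarOrderedRing B]
  (G : Type) [Group G] [Fintype G] (α : G → A ≃⋆ₐ[ℂ] A) (j : B →⋆ₐ[ℂ] A), IsAct α → IsFix α j →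
  Simp A → ¬ FiniteDimensional ℂ A → ∀ (φ : TState A) (σ₀ : QTrace A) (C : ℝ), IsQ φ σ₀ →
  0 ≤ C → Dom1 σ₀ C → (∀ g a, φ.φ (α g a) = φ.φ a) → TDiv B

/-! ## Finite von Neumann algebras

`S.centralizer` is the commutant of the set `S` of operators. -/

section vn
variable {H : Type u} [NormedAddCommGroup H] [InnerProductSpace ℂ H] [CompleteSpace H]

/-- The commutant of `S` is a von Neumann algebra with the separating trace vector `ξ`. -/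
structure FV (S : Set (H →L[ℂ] H)) (ξ : H) : Prop where
  star : ∀ x ∈ S, star x ∈ S
  norm : ‖ξ‖ = 1
  trace : ∀ x ∈ S.centralizer, ∀ y ∈ S.centralizer, ⟪ξ, x (y ξ)⟫_ℂ = ⟪ξ, y (x ξ)⟫_ℂ
  sep : ∀ x ∈ S.centralizer, x ξ = 0 → x = 0

/-- The trace. -/
def tr (ξ : H) (x : H →L[ℂ] H) : ℝ := (⟪ξ, x ξ⟫_ℂ).re

/-- `z` is a central projection of the commutant of `S`. -/
def CP (S : Set (H →L[ℂ] H)) (z : H →L[ℂ] H) : Prop :=
  z ∈ S.centralizer ∧ IsStarProjection z ∧ ∀ x ∈ S.centralizer, z * x = x * z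

/-- There is no nonzero abelian projection. -/
def NoAb (S : Set (H →L[ℂ] H)) : Prop :=
  ∀ f ∈ S.centralizer, IsStarProjection f → f ≠ 0 →
    ∃ x ∈ S.centralizer, ∃ y ∈ S.centralizer, f * x * f * y * f ≠ f * y * f * x * f

/-- The partial isometry `w` extends the partial isometry `v`. -/
def Ext (v w : H →L[ℂ] H) : Prop := w * (star v * v) = v

/-- There is no minimal projection. -/
def NoMin (S : Set (H →L[ℂ] H)) : Prop :=
  ∀ f ∈ S.centralizer, IsStarProjection f → f ≠ 0 →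
    ∃ g ∈ S.centralizer, IsStarProjection g ∧ f * g = g ∧ g ≠ 0 ∧ g ≠ f

end vn

def PolarP : Prop := ∀ (H : Type u) [NormedAddCommGroup H] [InnerProductSpace ℂ H]
  [CompleteSpace H] (S : Set (H →L[ℂ] H)), (∀ x ∈ S, star x ∈ S) → ∀ x ∈ S.centralizer,
  ∃ v ∈ S.centralizer, IsStarProjection (v * star v) ∧ IsStarProjection (star v * v) ∧
    v * star v * x = x ∧ x * (star v * v) = x ∧
    (∀ y : H →L[ℂ] H, y * x = 0 → y * (v * star v) = 0) ∧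
    (∀ y : H →L[ℂ] H, x * y = 0 → star v * v * y = 0)

/-- Norm estimates for the 2-norm. -/
def TwoNormP : Prop := ∀ (H : Type u) [NormedAddCommGroup H] [InnerProductSpace ℂ H]
  [CompleteSpace H] (S : Set (H →L[ℂ] H)) (ξ : H), FV S ξ →
  (∀ x ∈ S.centralizer, ‖(star x) ξ‖ = ‖x ξ‖) ∧
  ∀ x ∈ S.centralizer, ∀ t ∈ S.centralizer, ∀ y ∈ S.centralizer,
    ‖(x * t * y) ξ‖ ≤ ‖x‖ * ‖y‖ * ‖t ξ‖

/-- Maximal partial isometries. -/
def MaxP : Prop := ∀ (H : Type u) [NormedAddCommGroup H] [InnerProductSpace ℂ H]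
  [CompleteSpace H] (S : Set (H →L[ℂ] H)) (ξ : H), FV S ξ → ∀ V : Set (H →L[ℂ] H),
  (0 : H →L[ℂ] H) ∈ V → (∀ v ∈ V, v ∈ S.centralizer ∧ IsStarProjection (star v * v)) →
  (∀ (v : ℕ → (H →L[ℂ] H)) (w : H →L[ℂ] H), (∀ n, v n ∈ V) → (∀ n, Ext (v n) (v (n + 1))) →
    w ∈ S.centralizer → IsStarProjection (star w * w) → (∀ n, Ext (v n) w) →
    (∀ ζ : H, Tendsto (fun n => v n ζ) atTop (𝓝 (w ζ))) →
    (∀ ζ : H, Tendsto (fun n => (star (v n)) ζ) atTop (𝓝 ((star w) ζ))) → w ∈ V) →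
  ∃ v ∈ V, ∀ w ∈ V, Ext v w → w = v

/-- A self-adjoint element which does not commute with `y`. -/
def NcP : Prop := ∀ (A : Type u) [CStarAlgebra A] (x y : A), IsSelfAdjoint x → x * y ≠ y * x →
  ∃ g h : ℝ → ℝ, Continuous g ∧ Continuous h ∧ (∀ t, 0 ≤ g t) ∧ (∀ t, 0 ≤ h t) ∧
    (∀ t, g t * h t = 0) ∧ cfc g x * y * cfc h x ≠ 0

/-- Below a nonzero projection there are two nonzero orthogonal equivalent projections. -/
def TwoP : Prop := ∀ (H : Type u) [NormedAddCommGroup H] [InnerProductSpace ℂ H]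
  [CompleteSpace H] (S : Set (H →L[ℂ] H)), (∀ x ∈ S, star x ∈ S) → NoAb S →
  ∀ f ∈ S.centralizer, IsStarProjection f → f ≠ 0 → ∃ w ∈ S.centralizer,
    IsStarProjection (star w * w) ∧ w ≠ 0 ∧ f * w = w ∧ w * f = w ∧ w * w = 0

def ExhP : Prop := ∀ (H : Type u) [NormedAddCommGroup H] [InnerProductSpace ℂ H]
  [CompleteSpace H] (S : Set (H →L[ℂ] H)) (ξ : H), FV S ξ → ∀ p ∈ S.centralizer,
  ∀ q ∈ S.centralizer, IsStarProjection p → IsStarProjection q →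
  ∃ v ∈ S.centralizer, IsStarProjection (star v * v) ∧ q * v = v ∧ v * p = v ∧
    ∀ x ∈ S.centralizer, (q - v * star v) * x * (p - star v * v) = 0

def CsupP : Prop := ∀ (H : Type u) [NormedAddCommGroup H] [InnerProductSpace ℂ H]
  [CompleteSpace H] (S : Set (H →L[ℂ] H)), (∀ x ∈ S, star x ∈ S) → ∀ p ∈ S.centralizer,
  IsStarProjection p → ∃ z : H →L[ℂ] H, CP S z ∧ z * p = p ∧
    ∀ q ∈ S.centralizer, (∀ x ∈ S.centralizer, q * x * p = 0) → q * z = 0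

def CmpP : Prop := ∀ (H : Type u) [NormedAddCommGroup H] [InnerProductSpace ℂ H]
  [CompleteSpace H] (S : Set (H →L[ℂ] H)) (ξ : H), FV S ξ → ∀ p ∈ S.centralizer,
  ∀ q ∈ S.centralizer, IsStarProjection p → IsStarProjection q →
  (∀ z, CP S z → tr ξ (z * p) ≤ tr ξ (z * q)) → ∃ v ∈ S.centralizer, star v * v = p ∧ q * v = v

def HalvP : Prop := ∀ (H : Type u) [NormedAddCommGroup H] [InnerProductSpace ℂ H]
  [CompleteSpace H] (S : Set (H →L[ℂ] H)) (ξ : H), FV S ξ → NoAb S → ∀ e ∈ S.centralizer,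
  IsStarProjection e → ∃ v ∈ S.centralizer, IsStarProjection (star v * v) ∧
    star v * v + v * star v = e

def PiecesP : Prop := ∀ (H : Type u) [NormedAddCommGroup H] [InnerProductSpace ℂ H]
  [CompleteSpace H] (S : Set (H →L[ℂ] H)) (ξ : H), FV S ξ → NoAb S → ∀ k : ℕ,
  ∃ (V : Fin (2 ^ k) → (H →L[ℂ] H)) (E : H →L[ℂ] H), (∀ i, V i ∈ S.centralizer) ∧
    E ∈ S.centralizer ∧ IsStarProjection E ∧
    (∀ i l, star (V i) * V l = if i = l then E else 0) ∧ ∑ i, V i * star (V i) = 1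

def MinP : Prop := ∀ (H : Type u) [NormedAddCommGroup H] [InnerProductSpace ℂ H]
  [CompleteSpace H] (S : Set (H →L[ℂ] H)), (∀ x ∈ S, star x ∈ S) → ∀ f ∈ S.centralizer,
  IsStarProjection f →
  (∀ g ∈ S.centralizer, IsStarProjection g → f * g = g → g = 0 ∨ g = f) →
  ∀ x ∈ S.centralizer, ∃ c : ℂ, f * x * f = c • f

/-- If the traces of the nonzero central projections are bounded below and there is no minimal
projection then there is no abelian projection. -/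
def NoAbP : Prop := ∀ (H : Type u) [NormedAddCommGroup H] [InnerProductSpace ℂ H]
  [CompleteSpace H] (S : Set (H →L[ℂ] H)) (ξ : H), FV S ξ → ∀ κ : ℝ, 0 < κ →
  (∀ z, CP S z → z ≠ 0 → κ ≤ tr ξ z) → NoMin S → NoAb S

/-! ## The representation given by a tracial state -/

/-- `π` is the representation of `A` by left multiplications on `L²(A, φ)`, `ρ` the right
multiplications, `ξ` the vector given by the unit. -/
structure IsRep {A : Type u} [CStarAlgebra A] [PartialOrder A] [StarOrderedRing A]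
    (φ : TState A) {H : Type u} [NormedAddCommGroup H] [InnerProductSpace ℂ H] [CompleteSpace H]
    (π : A →⋆ₐ[ℂ] (H →L[ℂ] H)) (ρ : A → (H →L[ℂ] H)) (ξ : H) : Prop where
  inner : ∀ a, ⟪ξ, π a ξ⟫_ℂ = φ.φ a
  right : ∀ a b, ρ b (π a ξ) = π (a * b) ξ
  dense : Dense (Set.range fun a => π a ξ)

/-- The unitaries `U g` implement the action. -/
structure IsImp {A : Type u} [CStarAlgebra A] {G : Type} [Group G] (α : G → A ≃⋆ₐ[ℂ] A)
    {H : Type u} [NormedAddCommGroup H] [InnerProductSpace ℂ H] [CompleteSpace H]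
    (π : A →⋆ₐ[ℂ] (H →L[ℂ] H)) (ξ : H) (U : G → (H →L[ℂ] H)) : Prop where
  app : ∀ g a, U g (π a ξ) = π (α g a) ξ
  star : ∀ g, star (U g) = U g⁻¹
  mul : ∀ g h, U (g * h) = U g * U h
  one : U 1 = 1
  cov : ∀ g a, U g * π a = π (α g a) * U g

def GnsP : Prop := ∀ (A : Type u) [CStarAlgebra A] [PartialOrder A] [StarOrderedRing A]
  (φ : TState A), ∃ (H : Type u) (_ : NormedAddCommGroup H) (_ : InnerProductSpace ℂ H)
  (_ : CompleteSpace H) (π : A →⋆ₐ[ℂ] (H →L[ℂ] H)) (ρ : A → (H →L[ℂ] H)) (ξ : H),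
  IsRep φ π ρ ξ

def ImpP : Prop := ∀ (A : Type u) [CStarAlgebra A] [PartialOrder A] [StarOrderedRing A]
  (φ : TState A) (G : Type) [Group G] [Fintype G] (α : G → A ≃⋆ₐ[ℂ] A) (H : Type u)
  [NormedAddCommGroup H] [InnerProductSpace ℂ H] [CompleteSpace H]
  (π : A →⋆ₐ[ℂ] (H →L[ℂ] H)) (ρ : A → (H →L[ℂ] H)) (ξ : H), IsRep φ π ρ ξ → IsAct α →
  (∀ g a, φ.φ (α g a) = φ.φ a) → ∃ U : G → (H →L[ℂ] H), IsImp α π ξ U

def RepFVP : Prop := ∀ (A : Type u) [CStarAlgebra A] [PartialOrder A] [StarOrderedRing A]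
  (φ : TState A) (H : Type u) [NormedAddCommGroup H] [InnerProductSpace ℂ H] [CompleteSpace H]
  (π : A →⋆ₐ[ℂ] (H →L[ℂ] H)) (ρ : A → (H →L[ℂ] H)) (ξ : H), IsRep φ π ρ ξ →
  FV (Set.range ρ) ξ ∧ ∀ a, π a ∈ (Set.range ρ).centralizer

def RepFV2P : Prop := ∀ (A : Type u) [CStarAlgebra A] [PartialOrder A] [StarOrderedRing A]
  (B : Type u) [CStarAlgebra B] (j : B →⋆ₐ[ℂ] A)
  (φ : TState A) (G : Type) [Group G] [Fintype G] (α : G → A ≃⋆ₐ[ℂ] A) (H : Type u)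
  [NormedAddCommGroup H] [InnerProductSpace ℂ H] [CompleteSpace H]
  (π : A →⋆ₐ[ℂ] (H →L[ℂ] H)) (ρ : A → (H →L[ℂ] H)) (ξ : H) (U : G → (H →L[ℂ] H)),
  IsRep φ π ρ ξ → IsAct α → IsFix α j → IsImp α π ξ U →
  FV (Set.range ρ ∪ Set.range U) ξ ∧ ∀ b, π (j b) ∈ (Set.range ρ ∪ Set.range U).centralizer

def KapP : Prop := ∀ (A : Type u) [CStarAlgebra A] [PartialOrder A] [StarOrderedRing A]
  (φ : TState A) (H : Type u) [NormedAddCommGroup H] [InnerProductSpace ℂ H] [CompleteSpace H]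
  (π : A →⋆ₐ[ℂ] (H →L[ℂ] H)) (ρ : A → (H →L[ℂ] H)) (ξ : H), IsRep φ π ρ ξ →
  ∀ T ∈ (Set.range ρ).centralizer, ‖T‖ ≤ 1 → ∀ ε : ℝ, 0 < ε →
  ∃ x : A, ‖x‖ ≤ 1 ∧ ‖π x ξ - T ξ‖ < ε

def Kap2P : Prop := ∀ (A : Type u) [CStarAlgebra A] [PartialOrder A] [StarOrderedRing A]
  (B : Type u) [CStarAlgebra B] (j : B →⋆ₐ[ℂ] A)
  (φ : TState A) (G : Type) [Group G] [Fintype G] (α : G → A ≃⋆ₐ[ℂ] A) (H : Type u)
  [NormedAddCommGroup H] [InnerProductSpace ℂ H] [CompleteSpace H]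
  (π : A →⋆ₐ[ℂ] (H →L[ℂ] H)) (ρ : A → (H →L[ℂ] H)) (ξ : H) (U : G → (H →L[ℂ] H)),
  IsRep φ π ρ ξ → IsAct α → IsFix α j → IsImp α π ξ U →
  ∀ T ∈ (Set.range ρ ∪ Set.range U).centralizer, ‖T‖ ≤ 1 → ∀ ε : ℝ, 0 < ε →
  ∃ x : B, ‖x‖ ≤ 1 ∧ ‖π (j x) ξ - T ξ‖ < ε

def NoMinNP : Prop := ∀ (A : Type u) [CStarAlgebra A] [PartialOrder A] [StarOrderedRing A]
  (φ : TState A) (H : Type u) [NormedAddCommGroup H] [InnerProductSpace ℂ H] [CompleteSpace H]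
  (π : A →⋆ₐ[ℂ] (H →L[ℂ] H)) (ρ : A → (H →L[ℂ] H)) (ξ : H), IsRep φ π ρ ξ → Simp A →
  ¬ FiniteDimensional ℂ A → NoMin (Set.range ρ)

def NoMinPP : Prop := ∀ (A : Type u) [CStarAlgebra A] [PartialOrder A] [StarOrderedRing A]
  (φ : TState A) (G : Type) [Group G] [Fintype G] (α : G → A ≃⋆ₐ[ℂ] A) (H : Type u)
  [NormedAddCommGroup H] [InnerProductSpace ℂ H] [CompleteSpace H]
  (π : A →⋆ₐ[ℂ] (H →L[ℂ] H)) (ρ : A → (H →L[ℂ] H)) (ξ : H) (U : G → (H →L[ℂ] H)),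
  IsRep φ π ρ ξ → IsAct α → IsImp α π ξ U → NoMin (Set.range ρ) →
  NoMin (Set.range ρ ∪ Set.range U)

/-- Central projections of the fixed point algebra have large trace. -/
def ZBP : Prop := ∀ (A : Type u) [CStarAlgebra A] [PartialOrder A] [StarOrderedRing A]
  (B : Type u) [CStarAlgebra B] [PartialOrder B] [StarOrderedRing B] (j : B →⋆ₐ[ℂ] A)
  (φ : TState A) (σ₀ : QTrace A) (C : ℝ) (G : Type) [Group G] [Fintype G]
  (α : G → A ≃⋆ₐ[ℂ] A) (H : Type u)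
  [NormedAddCommGroup H] [InnerProductSpace ℂ H] [CompleteSpace H]
  (π : A →⋆ₐ[ℂ] (H →L[ℂ] H)) (ρ : A → (H →L[ℂ] H)) (ξ : H) (U : G → (H →L[ℂ] H)),
  IsRep φ π ρ ξ → IsAct α → IsFix α j → IsImp α π ξ U → IsQ φ σ₀ → 0 ≤ C →
  (∀ (ω : QTrace B) (x : B), 0 ≤ x → ω.dim (one1 x) ≤ C * σ₀.dim (one1 (j x))) →
  ∀ z, CP (Set.range ρ ∪ Set.range U) z → z ≠ 0 → 1 ≤ 2 * C * tr ξ z

/-- Rank functions of the traces given by central projections. -/
def RankP : Prop := ∀ (A : Type u) [CStarAlgebra A] [PartialOrder A] [StarOrderedRing A]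
  (φ : TState A) (H : Type u) [NormedAddCommGroup H] [InnerProductSpace ℂ H] [CompleteSpace H]
  (π : A →⋆ₐ[ℂ] (H →L[ℂ] H)) (ρ : A → (H →L[ℂ] H)) (ξ : H), IsRep φ π ρ ξ →
  ∀ z, CP (Set.range ρ) z → z ≠ 0 → ∃ σ : QTrace A, ∀ (a : A) (p : H →L[ℂ] H), 0 ≤ a →
    p ∈ (Set.range ρ).centralizer → IsStarProjection p → p * π a = π a →
    (∀ y : H →L[ℂ] H, y * π a = 0 → y * p = 0) →
    σ.dim (one1 a) * tr ξ z = tr ξ (z * p)

/-- Tracial comparison in the 2-norm. -/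
def TC2P : Prop := ∀ (D : Type u) [CStarAlgebra D] [PartialOrder D] [StarOrderedRing D]
  (φ : TState D) (a b : D), 0 ≤ a → 0 ≤ b →
  (∀ σ : QTrace D, σ.dim (one1 a) < σ.dim (one1 b)) → ∀ η : ℝ, 0 < η → ∃ y : D,
    (φ.φ ((a - star y * b * y) * (a - star y * b * y))).re < η

/-- Tracial divisibility in the 2-norm. -/
def TD2P : Prop := ∀ (A : Type u) [CStarAlgebra A] [PartialOrder A] [StarOrderedRing A]
  (B : Type u) [CStarAlgebra B] [PartialOrder B] [StarOrderedRing B]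
  (G : Type) [Group G] [Fintype G] (α : G → A ≃⋆ₐ[ℂ] A) (j : B →⋆ₐ[ℂ] A), IsAct α → IsFix α j →
  Simp A → ¬ FiniteDimensional ℂ A → ∀ (φ : TState A) (σ₀ : QTrace A) (C : ℝ), IsQ φ σ₀ →
  0 ≤ C → (∀ (ω : QTrace B) (x : B), 0 ≤ x → ω.dim (one1 x) ≤ C * σ₀.dim (one1 (j x))) →
  (∀ g a, φ.φ (α g a) = φ.φ a) → ∀ (k : ℕ) (η : ℝ), 0 < η →
  ∃ (e : B) (x : Fin (2 ^ k) → B), 0 ≤ e ∧ e ≤ 1 ∧ (∀ i, ‖x i‖ ≤ 1) ∧
    (φ.φ (j (star (1 - ∑ i, x i * (e * e) * star (x i)) *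
      (1 - ∑ i, x i * (e * e) * star (x i))))).re < η ∧
    ∀ i l, (φ.φ (j (star (e * star (x i) * x l * e - if i = l then e * e else 0) *
      (e * star (x i) * x l * e - if i = l then e * e else 0)))).re < η

/-! ## Crossed products -/

def CrossP : Prop := ∀ (A : Type u) [CStarAlgebra A] [PartialOrder A] [StarOrderedRing A]
  (G : Type) [Group G] [Fintype G] [DecidableEq G] (α : G → A ≃⋆ₐ[ℂ] A) (R : Type u)
  [CStarAlgebra R] (k : A →⋆ₐ[ℂ] R) (u : G → R), IsAct α → IsCross α k u →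
  ∃ (β : G → CStarMatrix G G A ≃⋆ₐ[ℂ] CStarMatrix G G A) (jR : R →⋆ₐ[ℂ] CStarMatrix G G A),
    IsAct β ∧ IsFix β jR ∧ ∀ φ : A →ₗ[ℂ] ℂ, (∀ g a, φ (α g a) = φ a) →
      ∀ (g : G) (T : CStarMatrix G G A), ∑ i, φ (β g T i i) = ∑ i, φ (T i i)

def MatSimpP : Prop := ∀ (A : Type u) [CStarAlgebra A] [PartialOrder A] [StarOrderedRing A]
  (ν : Type) [Fintype ν] [DecidableEq ν] [Nonempty ν],
  (Simp A → Simp (CStarMatrix ν ν A)) ∧
  (¬ FiniteDimensional ℂ A → ¬ FiniteDimensional ℂ (CStarMatrix ν ν A))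

def SimpP : Prop := ∀ (A : Type u) [CStarAlgebra A], IsSimpleC A → Simp A

end RC
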